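import Pool.Agent.H55.CK.BaseC

/-!
# Module BaseB: the words determine the topology of the space of shifts

* `agreeS_of_occ`: `x' ∈ X'`: its word of length `n` occurs in `X`, so some `x ∈ X` has the same word, `agree_of_wd`; and symmetrically.
* `bits_base`: for `ε` take `R` with `(1/2)^R < ε` (`exists_pow_lt_of_lt_one`), `n'` from `exists_cells_box`; there are finitely many words of length `n'` with entries in `A` (`List.finite_length_eq` for a
  finite alphabet, or `A.toFinset` and induction); let `n` be larger than all their codes. If `S' ∈ KK` and the bits below `n` agree, then the same words of length `n'` (they all have entries in `A`) occur in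
  `S` and `S'` (`bits_iff`, `lst_cod`), so `agreeS R`, `space_dist_lt_iff`.
* `bits_inj`: `S`, `S'` in `KK e A N P` with the same bits have `dist S' S < ε` for all `ε > 0` by `bits_base`.
* `kk_small`: let `R` with `(1/2)^R < ε`, `N` from `exists_cells_box`, `A` = codes of the symbols of a finite alphabet of `S` (`S.2.1`), `P` = the list of the words with entries in `A` of length `N` which
  occur in `S` (a finite set; `Set.Finite.toFinset.toList`). `S ∈ KK`, and every `S' ∈ KK` has the same words of length `N` as `S`, so `agreeS R`.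
-/

set_option autoImplicit false

namespace H55.CK

open H76.CB

variable {d : ℕ} {e : ℕ ≃ (Fin d → ℤ)}

theorem agreeS_of_occ {R n : ℕ} (h : ∀ u : Fin d → ℤ, supNorm u ≤ R → e.symm u < n) {X X' : Set (Config d)}
    (hX : ∀ w : List ℕ, w.length = n → (Occ e X' w ↔ Occ e X w)) : agreeS R X' X := by
  constructor
  · intro x hx
    obtain ⟨y, hy, hyw⟩ := (hX _ (wd_length x n)).1 (occ_wd hx n)
    rw [wd_length] at hyw
    exact ⟨y, hy, agree_of_wd h hyw.symm⟩
  · intro y hy
    obtain ⟨x, hx, hxw⟩ := (hX _ (wd_length y n)).2 (occ_wd hy n)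
    rw [wd_length] at hxw
    exact ⟨x, hx, agree_of_wd h hxw⟩

/-- there are finitely many words of length `n` with entries in `A` -/
theorem finite_words (A : List ℕ) (n : ℕ) : {w : List ℕ | w.length = n ∧ ∀ c ∈ w, c ∈ A}.Finite := by
  have : Finite {c // c ∈ A} := List.finite_toSet A
  have h := (List.finite_length_eq {c // c ∈ A} n).image (List.map Subtype.val)
  refine h.subset ?_
  rintro w ⟨hw1, hw2⟩
  refine ⟨w.attach.map (fun c => ⟨c.1, hw2 c.1 c.2⟩), by simp [hw1], ?_⟩
  simp

theorem bits_base {A : List ℕ} {N : ℕ} {P : List (List ℕ)} {S : ShiftSpace d} (hS : S ∈ KK e A N P) {ε : ℝ} (hε : 0 < ε) :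
    ∃ n : ℕ, ∀ S' ∈ KK e A N P, (∀ i < n, bits e S' i = bits e S i) → dist S' S < ε := by
  obtain ⟨R, hR⟩ := exists_pow_lt_of_lt_one hε (by norm_num : (1 / 2 : ℝ) < 1)
  obtain ⟨n', hn'⟩ := exists_cells_box e R
  have hfin := (finite_words A n').image cod
  obtain ⟨n, hn⟩ := hfin.bddAbove
  refine ⟨n + 1, fun S' hS' hb => ?_⟩
  refine lt_trans ((space_dist_lt_iff R S' S).2 ?_) hR
  refine agreeS_of_occ hn' ?_
  have hmem : ∀ T ∈ KK e A N P, ∀ w : List ℕ, w.length = n' → Occ e (carrier T) w → cod w < n + 1 := by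
    intro T hT w hw hocc
    obtain ⟨x, hx, hxw⟩ := hocc
    have : cod w ∈ cod '' {w : List ℕ | w.length = n' ∧ ∀ c ∈ w, c ∈ A} := by
      refine ⟨w, ⟨hw, ?_⟩, rfl⟩
      intro c hc
      rw [← hxw] at hc
      unfold wd at hc
      rw [List.mem_map] at hc
      obtain ⟨i, -, rfl⟩ := hc
      exact hT.1 x hx i
    exact Nat.lt_succ_of_le (hn this)
  intro w hw
  constructor
  · intro hocc
    have h1 := hmem S' hS' w hw hocc
    have h2 := hb _ h1
    have h3 : bits e S' (cod w) = true := (bits_iff S' (cod w)).2 (by rwa [lst_cod])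
    rw [h2, bits_iff, lst_cod] at h3
    exact h3
  · intro hocc
    have h1 := hmem S hS w hw hocc
    have h2 := hb _ h1
    have h3 : bits e S (cod w) = true := (bits_iff S (cod w)).2 (by rwa [lst_cod])
    rw [← h2, bits_iff, lst_cod] at h3
    exact h3

theorem bits_inj {A : List ℕ} {N : ℕ} {P : List (List ℕ)} : Set.InjOn (bits e) (KK e A N P) := by
  intro S hS S' hS' hb
  symm
  refine dist_le_zero.1 (le_of_forall_pos_lt_add fun ε hε => ?_)
  obtain ⟨n, hn⟩ := bits_base hS hε
  rw [zero_add]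
  exact hn S' hS' fun i _ => by rw [hb]

theorem kk_small (S : ShiftSpace d) {ε : ℝ} (hε : 0 < ε) : ∃ (A : List ℕ) (N : ℕ) (P : List (List ℕ)),
    S ∈ KK e A N P ∧ ∀ S' ∈ KK e A N P, dist S' S < ε := by
  classical
  obtain ⟨R, hR⟩ := exists_pow_lt_of_lt_one hε (by norm_num : (1 / 2 : ℝ) < 1)
  obtain ⟨N, hN⟩ := exists_cells_box e R
  obtain ⟨B, hB⟩ := S.2.1
  have hA : ∀ x ∈ carrier S, ∀ i, sy e x i ∈ B.toList.map Equiv.intEquivNat := by
    intro x hx i
    exact List.mem_map.2 ⟨x (e i), Finset.mem_toList.2 (hB x hx (e i)), rfl⟩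
  have hfin : {w : List ℕ | w.length = N ∧ Occ e (carrier S) w}.Finite := by
    refine (finite_words (B.toList.map Equiv.intEquivNat) N).subset ?_
    rintro w ⟨hw, x, hx, hxw⟩
    refine ⟨hw, ?_⟩
    intro c hc
    rw [← hxw] at hc
    unfold wd at hc
    rw [List.mem_map] at hc
    obtain ⟨i, -, rfl⟩ := hc
    exact hA x hx i
  refine ⟨B.toList.map Equiv.intEquivNat, N, hfin.toFinset.toList, ⟨hA, ?_⟩, ?_⟩
  · intro w hw
    rw [Finset.mem_toList, Set.Finite.mem_toFinset]
    exact ⟨fun h => ⟨hw, h⟩, fun h => h.2⟩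
  · intro S' hS'
    refine lt_trans ((space_dist_lt_iff R S' S).2 ?_) hR
    refine agreeS_of_occ hN ?_
    intro w hw
    rw [hS'.2 w hw, Finset.mem_toList, Set.Finite.mem_toFinset]
    exact ⟨fun h => h.2, fun h => ⟨hw, h⟩⟩

end H55.CK
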