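import Pool.Agent.H55.CK.Lang

/-!
# Module BaseC: nearby shifts have the same words

* `exists_cells_box`: the box of radius `R` is finite (`supNorm n ≤ R` gives `n ∈ Fintype.piFinset fun _ => Finset.Icc (-R) R`; take the sup of `e.symm` over it).
* `exists_box_cells`: `Finset.sup` of `supNorm (e i)` over `i < n`.
* `agree_of_wd`, `wd_of_agree`: `Equiv.intEquivNat` is injective.
* `occ_of_agreeS`: immediate from `wd_of_agree`, and `agreeS` is symmetric.
* `bits_cont`: for `n` the words `lst i`, `i < n`, have length at most some `n'`; `R` from `exists_box_cells n'`; `ε = (1/2)^R`, `space_dist_lt_iff`, `bits_iff`.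
* `kk_open`: let `S ∈ KK e A N P`, `R` from `exists_box_cells (max N 1)`. If `agreeS R (carrier S') (carrier S)` then the words of length `N` are the same, and for `x' ∈ carrier S'` and a cell `e i` the
  configuration `y' = shift (e i - e 0) x' ∈ carrier S'` has `y' (e 0) = x' (e i)`; some `y ∈ carrier S` agrees with it at the cell `e 0`, so the symbol is in `A`. (`Metric.isOpen_iff`.)
-/

set_option autoImplicit false

namespace H55.CK

open H76.CB

variable {d : ℕ} {e : ℕ ≃ (Fin d → ℤ)}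

theorem exists_cells_box (e : ℕ ≃ (Fin d → ℤ)) (R : ℕ) : ∃ n : ℕ, ∀ u : Fin d → ℤ, supNorm u ≤ R → e.symm u < n := by
  refine ⟨(Fintype.piFinset fun _ : Fin d => Finset.Icc (-(R : ℤ)) R).sup e.symm + 1, fun u hu => ?_⟩
  have h1 : u ∈ Fintype.piFinset fun _ : Fin d => Finset.Icc (-(R : ℤ)) R := by
    rw [Fintype.mem_piFinset]
    intro k
    have h2 : (u k).natAbs ≤ supNorm u :=
      Finset.le_sup (f := fun k => (u k).natAbs) (Finset.mem_univ k)
    rw [Finset.mem_Icc]
    omega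
  exact Nat.lt_succ_of_le (Finset.le_sup (f := e.symm) h1)

theorem exists_box_cells (e : ℕ ≃ (Fin d → ℤ)) (n : ℕ) : ∃ R : ℕ, ∀ i < n, supNorm (e i) ≤ R :=
  ⟨(Finset.range n).sup fun i => supNorm (e i), fun _ hi =>
    Finset.le_sup (f := fun i => supNorm (e i)) (Finset.mem_range.2 hi)⟩

theorem agree_of_wd {R n : ℕ} (h : ∀ u : Fin d → ℤ, supNorm u ≤ R → e.symm u < n) {x y : Config d}
    (hxy : wd e x n = wd e y n) : agreeC R x y := by
  intro u hu
  have h1 := List.map_inj_left.1 hxy (e.symm u) (List.mem_range.2 (h u hu))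
  have h2 : Equiv.intEquivNat (x (e (e.symm u))) = Equiv.intEquivNat (y (e (e.symm u))) := h1
  have h3 := Equiv.intEquivNat.injective h2
  rwa [Equiv.apply_symm_apply] at h3

theorem wd_of_agree {R n : ℕ} (h : ∀ i < n, supNorm (e i) ≤ R) {x y : Config d} (hxy : agreeC R x y) {m : ℕ}
    (hm : m ≤ n) : wd e x m = wd e y m := by
  refine List.map_inj_left.2 fun i hi => ?_
  have h1 : i < n := lt_of_lt_of_le (List.mem_range.1 hi) hm
  show Equiv.intEquivNat (x (e i)) = Equiv.intEquivNat (y (e i))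
  rw [hxy (e i) (h i h1)]

theorem occ_of_agreeS {R n : ℕ} (h : ∀ i < n, supNorm (e i) ≤ R) {X X' : Set (Config d)} (hX : agreeS R X' X)
    {w : List ℕ} (hw : w.length ≤ n) : Occ e X' w ↔ Occ e X w := by
  constructor
  · rintro ⟨x, hx, hxw⟩
    obtain ⟨y, hy, hxy⟩ := hX.1 x hx
    exact ⟨y, hy, by rw [← wd_of_agree h hxy hw, hxw]⟩
  · rintro ⟨y, hy, hyw⟩
    obtain ⟨x, hx, hxy⟩ := hX.2 y hy
    exact ⟨x, hx, by rw [wd_of_agree h hxy hw, hyw]⟩

theorem bits_cont (S : ShiftSpace d) (n : ℕ) : ∃ ε > 0, ∀ S' : ShiftSpace d, dist S' S < ε →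
    ∀ i < n, bits e S' i = bits e S i := by
  obtain ⟨R, hR⟩ := exists_box_cells e ((Finset.range n).sup fun i => (lst i).length)
  refine ⟨(1 / 2 : ℝ) ^ R, by positivity, fun S' hS' i hi => ?_⟩
  rw [space_dist_lt_iff] at hS'
  rw [Bool.eq_iff_iff, bits_iff, bits_iff]
  exact occ_of_agreeS hR hS'
    (Finset.le_sup (f := fun i => (lst i).length) (Finset.mem_range.2 hi))

theorem kk_open {A : List ℕ} {N : ℕ} {P : List (List ℕ)} : IsOpen (KK e A N P) := by
  rw [Metric.isOpen_iff]
  rintro S ⟨h1, h2⟩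
  obtain ⟨R, hR⟩ := exists_box_cells e (max N 1)
  refine ⟨(1 / 2 : ℝ) ^ R, by positivity, fun S' hS' => ?_⟩
  rw [Metric.mem_ball, space_dist_lt_iff] at hS'
  refine ⟨fun x' hx' i => ?_, fun w hw => ?_⟩
  · have h3 := carrier_shift S' (e i - e 0) hx'
    obtain ⟨y, hy, hxy⟩ := hS'.1 _ h3
    have h4 := hxy (e 0) (hR 0 (lt_of_lt_of_le one_pos (le_max_right N 1)))
    have h5 : shift (e i - e 0) x' (e 0) = x' (e i) := by
      show x' (e i - e 0 + e 0) = x' (e i)
      rw [sub_add_cancel]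
    rw [h5] at h4
    have h6 := h1 y hy 0
    have h7 : sy e x' i = sy e y 0 := by
      show Equiv.intEquivNat (x' (e i)) = Equiv.intEquivNat (y (e 0))
      rw [h4]
    rw [h7]
    exact h6
  · rw [← h2 w hw]
    exact occ_of_agreeS hR hS' (by rw [hw]; exact le_max_left N 1)

end H55.CK
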