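import Pool.Agent.H55.CK.Defs

/-!
# Module Basic: the Church-Kleene ordinal
-/

set_option autoImplicit false

namespace H55.CK

open Ordinal

theorem omega1CK_mem : omega1CK ∈ {α : Ordinal.{0} | ∀ (r : ℕ → ℕ → Prop) (_ : IsWellOrder ℕ r),
    ComputablePred (fun p : ℕ × ℕ => r p.1 p.2) → Ordinal.type r < α} := by
  refine csInf_mem ⟨Order.succ (⨆ r : {r : ℕ → ℕ → Prop // IsWellOrder ℕ r},
    @Ordinal.type ℕ r.1 r.2), ?_⟩
  intro r hr _
  refine Order.lt_succ_of_le ?_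
  exact Ordinal.le_iSup (fun r : {r : ℕ → ℕ → Prop // IsWellOrder ℕ r} => @Ordinal.type ℕ r.1 r.2) ⟨r, hr⟩

theorem type_lt {r : ℕ → ℕ → Prop} (hr : CompWO r) : @Ordinal.type ℕ r hr.wo < omega1CK :=
  omega1CK_mem r hr.wo hr.comp

theorem omega1CK_le {α : Ordinal.{0}} (h : ∀ (r : ℕ → ℕ → Prop) (hr : CompWO r), @Ordinal.type ℕ r hr.wo < α) :
    omega1CK ≤ α :=
  csInf_le' fun r hr hc => h r ⟨hr, hc⟩

end H55.CK
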