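import Pool.Agent.H55.CK.Defs

/-!
# Module Cells: an enumeration of `ℤ^d` for which the moves to neighbours are primitive recursive

`stp j s` is the unit step. By induction on `d ≥ 1` (`Nat.le_induction`). `d = 1`: `e = Equiv.intEquivNat.symm` followed by `(Equiv.funUnique (Fin 1) ℤ).symm`; the maps
`n ↦ intEquivNat (intEquivNat.symm n + 1)` and `n ↦ intEquivNat (intEquivNat.symm n - 1)` are primitive recursive (private lemmas `znext`, `zprev`: `intEquivNat` sends `k ≥ 0` to
`2k`, `-(k+1)` to `2k+1`; so the first is `n ↦ if n even then n + 2 else if n = 1 then 0 else n - 2` and the second is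
`n ↦ if n odd then n + 2 else if n = 0 then 1 else n - 2`). Step: `e' n = Fin.cons (intEquivNat.symm n.unpair.1) (e n.unpair.2)` (`Fin.consEquiv`, `Nat.pairEquiv`); the move in
direction `0` acts on the first component of `unpair`, the move in direction `j.succ` is `pair n.unpair.1 (move j n.unpair.2)` (`Primrec.unpair`, `Primrec₂.natPair`).
-/

set_option autoImplicit false

namespace H55.CK

/-- unit step in direction `j` -/
def stp {d : ℕ} (j : Fin d × Bool) : Fin d → ℤ := Pi.single j.1 (if j.2 then 1 else -1)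

/-- the move in direction `j` on the numbers of the cells -/
def mv {d : ℕ} (e : ℕ ≃ (Fin d → ℤ)) (j : Fin d × Bool) (i : ℕ) : ℕ := e.symm (stp j + e i)

private theorem iE_nat (k : ℕ) : Equiv.intEquivNat (k : ℤ) = 2 * k := rfl

private theorem iE_neg (k : ℕ) : Equiv.intEquivNat (Int.negSucc k) = 2 * k + 1 := rfl

private theorem iS_even (k : ℕ) : Equiv.intEquivNat.symm (2 * k) = (k : ℤ) := by
  rw [Equiv.symm_apply_eq, iE_nat]

private theorem iS_odd (k : ℕ) : Equiv.intEquivNat.symm (2 * k + 1) = Int.negSucc k := by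
  rw [Equiv.symm_apply_eq, iE_neg]

private theorem znext_eq (n : ℕ) : Equiv.intEquivNat (Equiv.intEquivNat.symm n + 1) =
    if n % 2 = 0 then n + 2 else if n = 1 then 0 else n - 2 := by
  rcases Nat.even_or_odd' n with ⟨k, rfl | rfl⟩
  · rw [iS_even, if_pos (by omega)]
    have : (k : ℤ) + 1 = ((k + 1 : ℕ) : ℤ) := by push_cast; ring
    rw [this, iE_nat]
    ring
  · rw [iS_odd, if_neg (by omega)]
    rcases k with _ | k
    · rw [if_pos (by omega)]
      have : Int.negSucc 0 + 1 = ((0 : ℕ) : ℤ) := by decide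
      rw [this, iE_nat]
    · rw [if_neg (by omega)]
      have : Int.negSucc (k + 1) + 1 = Int.negSucc k := by
        rw [Int.negSucc_eq, Int.negSucc_eq]
        push_cast
        ring
      rw [this, iE_neg]
      omega

private theorem zprev_eq (n : ℕ) : Equiv.intEquivNat (-1 + Equiv.intEquivNat.symm n) =
    if n % 2 = 0 then (if n = 0 then 1 else n - 2) else n + 2 := by
  rcases Nat.even_or_odd' n with ⟨k, rfl | rfl⟩
  · rw [iS_even, if_pos (by omega)]
    rcases k with _ | k
    · rw [if_pos (by omega)]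
      have : -1 + ((0 : ℕ) : ℤ) = Int.negSucc 0 := by decide
      rw [this, iE_neg]
    · rw [if_neg (by omega)]
      have : -1 + ((k + 1 : ℕ) : ℤ) = ((k : ℕ) : ℤ) := by push_cast; ring
      rw [this, iE_nat]
      omega
  · rw [iS_odd, if_neg (by omega)]
    have : -1 + Int.negSucc k = Int.negSucc (k + 1) := by
      rw [Int.negSucc_eq, Int.negSucc_eq]
      push_cast
      ring
    rw [this, iE_neg]
    ring

private theorem pr_even : PrimrecPred (fun n : ℕ => n % 2 = 0) :=
  Primrec.eq.comp (Primrec.nat_mod.comp Primrec.id (Primrec.const 2)) (Primrec.const 0)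

private theorem pr_eqc (c : ℕ) : PrimrecPred (fun n : ℕ => n = c) :=
  Primrec.eq.comp Primrec.id (Primrec.const c)

private theorem znext : Primrec (fun n : ℕ => Equiv.intEquivNat (1 + Equiv.intEquivNat.symm n)) := by
  have h : Primrec (fun n : ℕ => if n % 2 = 0 then n + 2 else if n = 1 then 0 else n - 2) :=
    Primrec.ite pr_even (Primrec.nat_add.comp Primrec.id (Primrec.const 2))
      (Primrec.ite (pr_eqc 1) (Primrec.const 0) (Primrec.nat_sub.comp Primrec.id (Primrec.const 2)))
  refine h.of_eq fun n => ?_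
  rw [add_comm 1 (Equiv.intEquivNat.symm n), znext_eq]

private theorem zprev : Primrec (fun n : ℕ => Equiv.intEquivNat (-1 + Equiv.intEquivNat.symm n)) := by
  have h : Primrec (fun n : ℕ => if n % 2 = 0 then (if n = 0 then 1 else n - 2) else n + 2) :=
    Primrec.ite pr_even
      (Primrec.ite (pr_eqc 0) (Primrec.const 1) (Primrec.nat_sub.comp Primrec.id (Primrec.const 2)))
      (Primrec.nat_add.comp Primrec.id (Primrec.const 2))
  refine h.of_eq fun n => ?_
  rw [zprev_eq]

private theorem zmove (b : Bool) :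
    Primrec (fun n : ℕ => Equiv.intEquivNat ((if b then (1 : ℤ) else -1) + Equiv.intEquivNat.symm n)) := by
  cases b
  · exact zprev
  · exact znext

private theorem stp_zero_cons {d : ℕ} (b : Bool) (x : ℤ) (y : Fin d → ℤ) :
    stp ((0 : Fin (d + 1)), b) + (Fin.cons x y : Fin (d + 1) → ℤ) =
      Fin.cons ((if b then (1 : ℤ) else -1) + x) y := by
  funext k
  refine Fin.cases ?_ (fun k => ?_) k
  · simp [stp]
  · simp [stp, Fin.succ_ne_zero]

private theorem stp_succ_cons {d : ℕ} (j : Fin d) (b : Bool) (x : ℤ) (y : Fin d → ℤ) :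
    stp (j.succ, b) + (Fin.cons x y : Fin (d + 1) → ℤ) = Fin.cons x (stp (j, b) + y) := by
  funext k
  refine Fin.cases ?_ (fun k => ?_) k
  · simp [stp]
  · by_cases hk : k = j
    · subst hk
      simp [stp]
    · have h : k.succ ≠ j.succ := fun hh => hk (Fin.succ_injective _ hh)
      simp [stp, Pi.single_eq_of_ne h, Pi.single_eq_of_ne hk]

/-- the enumeration in dimension `d + 1` -/
private def nx {d : ℕ} (e : ℕ ≃ (Fin d → ℤ)) : ℕ ≃ (Fin (d + 1) → ℤ) :=
  (Nat.pairEquiv.symm.trans (Equiv.prodCongr Equiv.intEquivNat.symm e)).trans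
    (Fin.consEquiv (fun _ : Fin (d + 1) => ℤ))

private theorem nx_apply {d : ℕ} (e : ℕ ≃ (Fin d → ℤ)) (n : ℕ) :
    nx e n = (Fin.cons (Equiv.intEquivNat.symm n.unpair.1) (e n.unpair.2) : Fin (d + 1) → ℤ) := rfl

private theorem nx_symm {d : ℕ} (e : ℕ ≃ (Fin d → ℤ)) (x : ℤ) (y : Fin d → ℤ) :
    (nx e).symm (Fin.cons x y : Fin (d + 1) → ℤ) = Nat.pair (Equiv.intEquivNat x) (e.symm y) := by
  rw [Equiv.symm_apply_eq, nx_apply, Nat.unpair_pair]
  simp

theorem exists_cells (d : ℕ) (hd : 0 < d) : ∃ e : ℕ ≃ (Fin d → ℤ), ∀ j : Fin d × Bool, Primrec (mv e j) := by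
  induction d, hd using Nat.le_induction with
  | base =>
    refine ⟨Equiv.intEquivNat.symm.trans (Equiv.funUnique (Fin 1) ℤ).symm, ?_⟩
    rintro ⟨j, b⟩
    refine (zmove b).of_eq fun n => ?_
    have hj : j = 0 := Subsingleton.elim _ _
    subst hj
    unfold mv
    show _ = Equiv.intEquivNat (stp ((0 : Fin 1), b) default + Equiv.intEquivNat.symm n)
    congr 1
  | succ d hd ih =>
    obtain ⟨e, he⟩ := ih
    refine ⟨nx e, ?_⟩
    rintro ⟨j, b⟩
    refine Fin.cases ?_ (fun j => ?_) j
    · have h : Primrec (fun n : ℕ => Nat.pair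
          (Equiv.intEquivNat ((if b then (1 : ℤ) else -1) + Equiv.intEquivNat.symm n.unpair.1)) n.unpair.2) :=
        Primrec₂.natPair.comp ((zmove b).comp (Primrec.fst.comp Primrec.unpair))
          (Primrec.snd.comp Primrec.unpair)
      refine h.of_eq fun n => ?_
      unfold mv
      rw [nx_apply, stp_zero_cons, nx_symm, Equiv.symm_apply_apply]
    · have h : Primrec (fun n : ℕ => Nat.pair n.unpair.1 (mv e (j, b) n.unpair.2)) :=
        Primrec₂.natPair.comp (Primrec.fst.comp Primrec.unpair)
          ((he (j, b)).comp (Primrec.snd.comp Primrec.unpair))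
      refine h.of_eq fun n => ?_
      unfold mv
      rw [nx_apply, stp_succ_cons, nx_symm, Equiv.apply_symm_apply]

end H55.CK
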