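import Pool.Agent.H55.CK.Top

/-!
# Module Chain: the Cantor-Bendixson rank along the chain of subsystems

`hasRk_mono`: `hasRk_iff`. `chain` by induction on `α`: the set `Y v` is nonempty (`orb_Y`), closed (`Y_cl`), invariant (`Y_sh`), so `exists_shift` gives `S` with `carrier S = E '' Y v`. By
`InCB.of_forall_lt` it is enough to show `InCB (γ + 1) (E '' Y v)` for `γ < α`. By `InCB.succ`: `InCB γ (E '' Y v)` is the induction hypothesis (`HasRk r γ v` by `hasRk_mono`). Let `R` be given and `y` from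
`exists_top`. By `HasRk` (`hasRk_iff`, for `γ` and `y < v`) there is `z` with `y < z < v`, `HasRk r γ z`. Take `X' = E '' Y z`: `InCB γ X'` by the induction hypothesis (`∃ y, y < z`). `Y z ⊆ Y v` by
transitivity (`cl_mono`); `Orb (o y) ⊆ Y z` (`orb_Y`), so `agreeS R X' (E '' Y v)` (`agreeC_E`). `X' ≠ E '' Y v`: `o z ∈ Y v` (`z < v`, `orb_Y`; `o z = sh 0 (o z)`), `o z ∉ Y z` (`A.new`), `E_inj`.
-/

set_option autoImplicit false

namespace H55.CK

open H76.CB

variable {r : ℕ → ℕ → Prop}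

theorem hasRk_mono {α β : Ordinal.{0}} (h : β ≤ α) {v : ℕ} (hv : HasRk r α v) : HasRk r β v := by
  rw [hasRk_iff] at hv ⊢
  exact fun γ hγ => hv γ (lt_of_lt_of_le hγ h)

theorem chain (A : Tiles r) (hr : IsWellOrder ℕ r) (k : ℕ) (α : Ordinal.{0}) {v : ℕ} (hv : HasRk r α v)
    (hy : ∃ y, r y v) : InCB α (E A.T k '' A.Y v) := by
  induction α using WellFoundedLT.induction generalizing v with
  | ind α ih =>
    have hself : ∀ y, A.o y ∈ Tl.Orb (A.o y) := fun y => ⟨0, by funext p; simp [Tl.sh]⟩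
    have h0 : InCB 0 (E A.T k '' A.Y v) := by
      obtain ⟨y, hy'⟩ := hy
      exact exists_shift (Y_cl A v) ⟨A.o y, orb_Y A hy' (hself y)⟩ fun u x hx => Y_sh A v u hx
    obtain ⟨S, hS, -⟩ := h0
    rw [← hS]
    refine InCB.of_forall_lt fun γ hγ => ?_
    rw [hS]
    refine InCB.succ (ih γ hγ (hasRk_mono hγ.le hv) hy) fun R => ?_
    obtain ⟨y, hyv, hR⟩ := exists_top A hr hy R
    obtain ⟨z, hyz, hzv, hz⟩ := ((hasRk_iff.1 hv) γ hγ).2 y hyv
    have hsub : A.Y z ⊆ A.Y v := by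
      refine cl_mono fun x hx => ?_
      simp only [Set.mem_iUnion, Set.mem_ofPred_eq] at hx ⊢
      obtain ⟨j, hj, hx⟩ := hx
      exact ⟨j, (haveI := hr; IsTrans.trans j z v hj hzv), hx⟩
    refine ⟨E A.T k '' A.Y z, ih γ hγ hz ⟨y, hyz⟩, ?_, ?_, ?_⟩
    · intro heq
      have h1 : E A.T k (A.o z) ∈ E A.T k '' A.Y v := ⟨A.o z, orb_Y A hzv (hself z), rfl⟩
      rw [← heq] at h1
      obtain ⟨x, hx, hxz⟩ := h1
      have h2 : x = A.o z := E_inj hxz
      rw [h2] at hx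
      exact A.new z hx
    · rintro _ ⟨x, hx, rfl⟩
      exact ⟨E A.T k x, ⟨x, hsub hx, rfl⟩, agreeC_E.2 fun a b _ _ => rfl⟩
    · rintro _ ⟨x, hx, rfl⟩
      obtain ⟨x', hx', hag⟩ := hR x hx
      exact ⟨E A.T k x', ⟨x', orb_Y A hyz hx', rfl⟩, agreeC_E.2 hag⟩

end H55.CK
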