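import Pool.Agent.H55.CK.Defs

/-!
# Module Comp: closure properties of computable predicates

`ComputablePred p` is `∃ _ : DecidablePred p, Computable fun a => decide (p a)`; see also `ComputablePred.computable_iff`
(`∃ f : α → Bool, Computable f ∧ p = fun a => f a`), `ComputablePred.not`, `ComputablePred.of_eq`, `PrimrecPred.computablePred` (or the like) in
`Mathlib/Computability/RE.lean`.
* `cp_and`, `cp_or`: compose with `Primrec.and`, `Primrec.or` (`Primrec₂.to_comp`, `Computable₂.comp`). `cp_imp`: `cp_or` and `ComputablePred.not`.
* `cp_comp`: `Computable.comp`.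
* `cp_all`: with `f : ℕ × α → Bool` computable deciding `p`, the function `F (n, a) = Nat.rec true (fun i b => b && f (i, a)) n` is computable by
  `Computable.nat_rec`, and `F (n, a) = true ↔ ∀ i < n, p i a` by induction on `n`.
* `cp_lst`: `lst` is computable (`Computable.ofNat` or `Primrec.ofNat`), `prim_lst`, `prim_cod` primitive recursive (`Primrec.ofNat`, `Primrec.encode`).
-/

set_option autoImplicit false

namespace H55.CK

variable {α β : Type} [Primcodable α] [Primcodable β]

theorem cp_and {p q : α → Prop} (hp : ComputablePred p) (hq : ComputablePred q) :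
    ComputablePred fun a => p a ∧ q a := by
  obtain ⟨f, hf, rfl⟩ := ComputablePred.computable_iff.1 hp
  obtain ⟨g, hg, rfl⟩ := ComputablePred.computable_iff.1 hq
  refine ComputablePred.computable_iff.2 ⟨fun a => f a && g a, Primrec.and.to_comp.comp hf hg, ?_⟩
  funext a
  simp

theorem cp_or {p q : α → Prop} (hp : ComputablePred p) (hq : ComputablePred q) :
    ComputablePred fun a => p a ∨ q a := by
  obtain ⟨f, hf, rfl⟩ := ComputablePred.computable_iff.1 hp
  obtain ⟨g, hg, rfl⟩ := ComputablePred.computable_iff.1 hq
  refine ComputablePred.computable_iff.2 ⟨fun a => f a || g a, Primrec.or.to_comp.comp hf hg, ?_⟩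
  funext a
  simp

theorem cp_imp {p q : α → Prop} (hp : ComputablePred p) (hq : ComputablePred q) :
    ComputablePred fun a => p a → q a := by
  refine (cp_or hp.not hq).of_eq fun a => ?_
  tauto

theorem cp_comp {p : β → Prop} (hp : ComputablePred p) {f : α → β} (hf : Computable f) :
    ComputablePred fun a => p (f a) := by
  obtain ⟨g, hg, rfl⟩ := ComputablePred.computable_iff.1 hp
  exact ComputablePred.computable_iff.2 ⟨fun a => g (f a), hg.comp hf, rfl⟩

theorem cp_of_prim {p : α → Prop} (hp : PrimrecPred p) : ComputablePred p :=
  hp.computablePred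

theorem cp_all {p : ℕ → α → Prop} (hp : ComputablePred fun q : ℕ × α => p q.1 q.2) {f : α → ℕ}
    (hf : Computable f) : ComputablePred fun a => ∀ i < f a, p i a := by
  obtain ⟨g, hg, hpg⟩ := ComputablePred.computable_iff.1 hp
  have hp' : ∀ i a, p i a ↔ g (i, a) = true := fun i a => by
    have := congrFun hpg (i, a)
    simpa using this
  refine ComputablePred.computable_iff.2
    ⟨fun a => Nat.rec (motive := fun _ => Bool) true (fun i b => b && g (i, a)) (f a), ?_, ?_⟩
  · have h1 : Computable fun q : α × ℕ × Bool => g (q.2.1, q.1) :=
      hg.comp (Computable.pair (Computable.fst.comp Computable.snd) Computable.fst)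
    have h2 : Computable fun q : α × ℕ × Bool => q.2.2 := Computable.snd.comp Computable.snd
    have h3 : Computable₂ fun (a : α) (q : ℕ × Bool) => q.2 && g (q.1, a) :=
      (Primrec.and.to_comp.comp h2 h1).to₂
    exact (Computable.nat_rec hf (Computable.const true) h3).of_eq fun a => rfl
  · funext a
    refine propext ?_
    have key : ∀ n : ℕ, (∀ i < n, p i a) ↔
        (Nat.rec (motive := fun _ => Bool) true (fun i b => b && g (i, a)) n : Bool) = true := by
      intro n
      induction n with
      | zero => simp
      | succ n ih =>
        constructor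
        · intro h
          have h1 := ih.1 fun i hi => h i (Nat.lt_succ_of_lt hi)
          have h2 := (hp' n a).1 (h n (Nat.lt_succ_self n))
          simp only [h1, h2, Bool.and_self]
        · intro h i hi
          simp only [Bool.and_eq_true] at h
          rcases Nat.lt_succ_iff_lt_or_eq.1 hi with h3 | h3
          · exact ih.2 h.1 i h3
          · rw [h3]; exact (hp' n a).2 h.2
    exact key (f a)

theorem prim_lst : Primrec lst :=
  Primrec.ofNat (List ℕ)

theorem prim_cod : Primrec cod :=
  Primrec.encode

end H55.CK
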