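import Pool.Agent.H76.CBShift

/-!
# Module CptA: the configurations with symbols in a finite set form a compact set

`Config d` has the metric `δ` of `CBSpace` (`dist_lt_iff`: `dist x y < (1/2)^R ↔ agreeC R x y`). The map from the compact space `(Fin d → ℤ) → A` (product of finite discrete spaces; `A : Finset ℤ`
as a type with the discrete topology, `Finite`, so `CompactSpace` by `Pi.compactSpace`) to `Config d`, `f ↦ fun n => (f n : ℤ)`, is continuous: the cylinder
`{g | ∀ n ∈ box R, g n = f n}` is open (`isOpen_set_pi` over the finite set of `n` with `supNorm n ≤ R`: a subset of `Fintype.piFinset fun _ => Finset.Icc (-R) R`); compare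
`continuous_Psi` in `Pool/Agent/H76/CBFinal.lean`. The set is its range (`isCompact_range`).
`exists_carrier`: a closed (in the sense of agreement on boxes), nonempty, shift invariant set of such configurations is the carrier of a shift (`IsClosed` from `mem_of_closed_agree`-like
argument: `Metric.mem_closure_iff`, `dist_lt_iff`); `iteratedDerivedSet_zero` (see `inCB_zero` in `CBFinal.lean`).
-/

set_option autoImplicit false

namespace H55.CK

open H76.CB

variable {d : ℕ}

private lemma finite_ball (d R : ℕ) : {n : Fin d → ℤ | supNorm n ≤ R}.Finite := by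
  refine Set.Finite.subset (Finset.finite_toSet (Fintype.piFinset fun _ : Fin d => Finset.Icc (-(R : ℤ)) R)) ?_
  intro n hn
  rw [Finset.mem_coe, Fintype.mem_piFinset]
  intro k
  have h1 : (n k).natAbs ≤ supNorm n := Finset.le_sup (f := fun k => (n k).natAbs) (Finset.mem_univ k)
  have h2 : supNorm n ≤ R := hn
  rw [Finset.mem_Icc]
  omega

/-- the configuration of a map into the alphabet -/
private def toC (A : Finset ℤ) (f : (Fin d → ℤ) → A) : Config d := fun n => (f n : ℤ)

private lemma continuous_toC (A : Finset ℤ) : Continuous (toC (d := d) A) := by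
  rw [continuous_iff_continuousAt]
  intro f
  refine Metric.tendsto_nhds.2 (fun ε hε => ?_)
  obtain ⟨R, hR⟩ := exists_pow_lt_of_lt_one hε (by norm_num : (1 / 2 : ℝ) < 1)
  have hopen : IsOpen (⋂ n ∈ {n : Fin d → ℤ | supNorm n ≤ R},
      (fun g : (Fin d → ℤ) → A => g n) ⁻¹' ({f n} : Set A)) :=
    (finite_ball d R).isOpen_biInter fun n _ => (isOpen_discrete ({f n} : Set A)).preimage (continuous_apply n)
  have hmem : f ∈ (⋂ n ∈ {n : Fin d → ℤ | supNorm n ≤ R},
      (fun g : (Fin d → ℤ) → A => g n) ⁻¹' ({f n} : Set A)) := by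
    rw [Set.mem_iInter₂]
    intro n _
    rfl
  filter_upwards [hopen.mem_nhds hmem] with g hg
  refine lt_trans ((dist_lt_iff R _ _).2 ?_) hR
  intro n hn
  rw [Set.mem_iInter₂] at hg
  have h1 : g n = f n := hg n hn
  show ((g n : A) : ℤ) = ((f n : A) : ℤ)
  rw [h1]

theorem isCompact_alph (A : Finset ℤ) : IsCompact {x : Config d | ∀ n, x n ∈ A} := by
  have e : {x : Config d | ∀ n, x n ∈ A} = Set.range (toC (d := d) A) := by
    ext x
    constructor
    · intro hx
      exact ⟨fun n => ⟨x n, hx n⟩, rfl⟩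
    · rintro ⟨f, rfl⟩ n
      exact (f n).2
  rw [e]
  exact isCompact_range (continuous_toC A)

theorem exists_carrier {X : Set (Config d)} (A : Finset ℤ) (hA : ∀ x ∈ X, ∀ n, x n ∈ A)
    (hcl : ∀ x : Config d, (∀ R : ℕ, ∃ y ∈ X, agreeC R x y) → x ∈ X) (hne : X.Nonempty)
    (hsh : ∀ u, ∀ x ∈ X, shift u x ∈ X) : ∃ S : ShiftSpace d, carrier S = X := by
  have hclosed : IsClosed X := by
    rw [← closure_subset_iff_isClosed]
    intro x hx
    rw [Metric.mem_closure_iff] at hx
    refine hcl x fun R => ?_
    obtain ⟨y, hy, hxy⟩ := hx ((1 / 2 : ℝ) ^ R) (by positivity)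
    exact ⟨y, hy, (dist_lt_iff R x y).1 hxy⟩
  have hcomp : IsCompact X := (isCompact_alph A).of_isClosed_subset hclosed fun x hx n => hA x hx n
  let K : TopologicalSpace.NonemptyCompacts (Config d) := ⟨⟨X, hcomp⟩, hne⟩
  have hK : IsShift K := ⟨⟨A, fun x hx n => hA x hx n⟩, fun u x hx => hsh u x hx⟩
  exact ⟨⟨K, hK⟩, rfl⟩

end H55.CK
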