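import Pool.Agent.H55.CK.ComplX
import Pool.Agent.H55.CK.CptA
import Pool.Agent.H55.CK.BaseC

/-!
# Module Compl: every branch of the tree is the characteristic sequence of the language of a shift

Let `L w := β (cod w) = true`. Taking `t` larger than the finitely many codes in question, the rules say (`lst_cod`; `((List.range t).map β)[k]? = some (β k)` for `k < t`):
`L []`; `L (w ++ [c]) → c ∈ A ∧ L w`; `L w → ∃ c ∈ A, L (w ++ [c])`; if `L w`, `m ≤ w.length` and `mv e j i < w.length` for `i < m`, then `L ((List.range m).map fun i => w.getD (mv e j i) 0)`;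
for `w.length = N`: `L w ↔ w ∈ P`. Let `X = {x : Config d | ∀ n, L (wd e x n)}`.
* If `L w` there is `x ∈ X` with `wd e x w.length = w` (`cfg`). So `Occ e X w ↔ L w` (the other direction is the definition of `X`).
* All symbols of `x ∈ X` are in `A` (as `wd e x (i+1)` ends with `sy e x i`). `X` is invariant under `shift (stp j)`: for `m` let `n` be larger than `m` and all `mv e j i`, `i < m`; the rule for
  `w = wd e x n` gives `wd e (shift (stp j) x) m` (`sy_shift`). So it is invariant under all shifts (`shift_gen`).
* `X` is closed under limits: if for every `R` there is `y ∈ X` with `agreeC R x y` then `x ∈ X` (`exists_box_cells`, `wd_of_agree`). Nonempty by the first item with `w = []`. `exists_carrier` (alphabet: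
  the image of `A.toFinset` under `Equiv.intEquivNat.symm`) gives `S : ShiftSpace d` with `carrier S = X`.
So `bits e S = β` (`bits_iff`, `cod_lst`) and `S ∈ KK e A N P`.
-/

set_option autoImplicit false

namespace H55.CK

open H76.CB

variable {d : ℕ}

private theorem get_some (β : ℕ → Bool) {k t : ℕ} (h : k < t) :
    ((List.range t).map β)[k]? = some (β k) := by
  rw [List.getElem?_map, List.getElem?_range h]
  rfl

private theorem getD_wd {e : ℕ ≃ (Fin d → ℤ)} (x : Config d) {n k : ℕ} (h : k < n) :
    (wd e x n).getD k 0 = sy e x k := by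
  unfold wd
  rw [List.getD_eq_getElem?_getD, List.getElem?_map, List.getElem?_range h]
  rfl

theorem tt_compl {e : ℕ ≃ (Fin d → ℤ)} {A : List ℕ} {N : ℕ} {P : List (List ℕ)} {β : ℕ → Bool}
    (h : ∀ t, TT e A N P ((List.range t).map β)) : ∃ S ∈ KK e A N P, bits e S = β := by
  classical
  set L : List ℕ → Prop := fun w => β (cod w) = true with hL
  have hrul : ∀ (w : List ℕ) (t : ℕ), cod w < t → Rul e A N P ((List.range t).map β) (cod w) := by
    intro w t ht
    refine h t (cod w) ?_
    rw [List.length_map, List.length_range]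
    exact ht
  -- the rules for `L`
  have hnil : L [] := by
    have h1 := (hrul [] (cod [] + 1) (Nat.lt_succ_self _)).nil (lst_cod [])
    rw [get_some β (Nat.lt_succ_self _)] at h1
    exact Option.some.inj h1
  have hlast : ∀ w c, L (w ++ [c]) → c ∈ A := by
    intro w c hw
    have h1 := (hrul (w ++ [c]) (cod (w ++ [c]) + 1) (Nat.lt_succ_self _)).last
    rw [get_some β (Nat.lt_succ_self _), lst_cod] at h1
    have h2 := h1 (by rw [show β (cod (w ++ [c])) = true from hw]) (by simp)
    simpa using h2
  have hdrop : ∀ w c, L (w ++ [c]) → L w := by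
    intro w c hw
    have h0 : cod (w ++ [c]) < max (cod (w ++ [c])) (cod w) + 1 := by omega
    have h0' : cod w < max (cod (w ++ [c])) (cod w) + 1 := by omega
    have h1 := (hrul (w ++ [c]) _ h0).drop
    rw [get_some β h0, lst_cod] at h1
    have h2 := h1 (by rw [show β (cod (w ++ [c])) = true from hw]) (by simp)
    rw [List.dropLast_concat, get_some β h0'] at h2
    have h3 : β (cod w) ≠ false := fun h4 => h2 (by rw [h4])
    show β (cod w) = true
    simpa using h3
  have hext : ∀ w, L w → ∃ c, L (w ++ [c]) := by
    intro w hw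
    set t : ℕ := max (cod w) (A.toFinset.sup fun c => cod (w ++ [c])) + 1 with ht
    have h0 : cod w < t := by omega
    have h1 := (hrul w t h0).ext
    rw [get_some β h0, lst_cod] at h1
    have h2 := h1 (by rw [show β (cod w) = true from hw])
    by_contra hcon
    push Not at hcon
    apply h2
    intro c hc
    have h3 : cod (w ++ [c]) ≤ A.toFinset.sup fun c => cod (w ++ [c]) :=
      Finset.le_sup (f := fun c => cod (w ++ [c])) (List.mem_toFinset.2 hc)
    rw [get_some β (by omega)]
    have h4 : β (cod (w ++ [c])) ≠ true := hcon c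
    have h5 : β (cod (w ++ [c])) = false := by simpa using h4
    rw [h5]
  have hshift : ∀ w, L w → ∀ (j : Fin d × Bool) (m : ℕ), m ≤ w.length →
      (∀ i < m, mv e j i < w.length) → L ((List.range m).map fun i => w.getD (mv e j i) 0) := by
    intro w hw j m hm hi
    set w' : List ℕ := (List.range m).map fun i => w.getD (mv e j i) 0 with hw'
    have h0 : cod w < max (cod w) (cod w') + 1 := by omega
    have h0' : cod w' < max (cod w) (cod w') + 1 := by omega
    have h1 := (hrul w _ h0).shift
    rw [get_some β h0, lst_cod] at h1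
    have h2 := h1 (by rw [show β (cod w) = true from hw]) j m (by omega) hi
    rw [← hw', get_some β h0'] at h2
    have h3 : β (cod w') ≠ false := fun h4 => h2 (by rw [h4])
    show β (cod w') = true
    simpa using h3
  have htab : ∀ w, w.length = N → (L w ↔ w ∈ P) := by
    intro w hw
    have h0 : cod w < cod w + 1 := Nat.lt_succ_self _
    have h1 := (hrul w _ h0).table
    rw [get_some β h0, lst_cod] at h1
    have h2 := h1 hw
    rw [← h2]
    show β (cod w) = true ↔ _
    rw [Option.some.injEq]
  -- the shift
  set X : Set (Config d) := {x | ∀ n, L (wd e x n)} with hX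
  have hoccX : ∀ w, Occ e X w ↔ L w := by
    intro w
    constructor
    · rintro ⟨x, hx, hxw⟩
      have := hx w.length
      rwa [hxw] at this
    · intro hw
      obtain ⟨x, hx1, hx2⟩ := cfg hext hdrop hw
      exact ⟨x, hx2, hx1⟩
  have hsymb : ∀ x ∈ X, ∀ i, sy e x i ∈ A := by
    intro x hx i
    have h1 := hx (i + 1)
    rw [wd_succ] at h1
    exact hlast _ _ h1
  have hst : ∀ j : Fin d × Bool, ∀ x ∈ X, shift (stp j) x ∈ X := by
    intro j x hx m
    set n : ℕ := max m ((Finset.range m).sup fun i => mv e j i) + 1 with hn
    have h1 := hshift (wd e x n) (hx n) j m (by rw [wd_length]; omega) (by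
      intro i hi
      rw [wd_length]
      have : mv e j i ≤ (Finset.range m).sup fun i => mv e j i :=
        Finset.le_sup (f := fun i => mv e j i) (Finset.mem_range.2 hi)
      omega)
    have h2 : ((List.range m).map fun i => (wd e x n).getD (mv e j i) 0) = wd e (shift (stp j) x) m := by
      unfold wd
      refine List.map_congr_left fun i hi => ?_
      have hi' : i < m := List.mem_range.1 hi
      have : mv e j i ≤ (Finset.range m).sup fun i => mv e j i :=
        Finset.le_sup (f := fun i => mv e j i) (Finset.mem_range.2 hi')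
      rw [sy_shift]
      exact getD_wd x (by omega)
    rw [h2] at h1
    exact h1
  have hcl : ∀ x : Config d, (∀ R : ℕ, ∃ y ∈ X, agreeC R x y) → x ∈ X := by
    intro x hx n
    obtain ⟨R, hR⟩ := exists_box_cells e n
    obtain ⟨y, hy, hxy⟩ := hx R
    rw [wd_of_agree hR hxy le_rfl]
    exact hy n
  have hne : X.Nonempty := by
    obtain ⟨x, -, hx2⟩ := cfg hext hdrop hnil
    exact ⟨x, hx2⟩
  have hA : ∀ x ∈ X, ∀ u, x u ∈ A.toFinset.image Equiv.intEquivNat.symm := by
    intro x hx u
    have h1 := hsymb x hx (e.symm u)
    unfold sy at h1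
    rw [Equiv.apply_symm_apply] at h1
    refine Finset.mem_image.2 ⟨_, List.mem_toFinset.2 h1, ?_⟩
    exact Equiv.symm_apply_apply _ _
  obtain ⟨S, hS⟩ := exists_carrier (A.toFinset.image Equiv.intEquivNat.symm) hA hcl hne
    (fun u x hx => shift_gen hst u hx)
  refine ⟨S, ⟨?_, ?_⟩, ?_⟩
  · rw [hS]
    exact hsymb
  · intro w hw
    rw [hS, hoccX]
    exact htab w hw
  · funext n
    rw [Bool.eq_iff_iff, bits_iff, hS, hoccX]
    show β (cod (lst n)) = true ↔ _
    rw [cod_lst]

end H55.CK
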