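import Pool.Agent.H55.CK.Lang

/-!
# Module ComplX: the configurations of a language

`L` is a set of words which is extendable and closed under prefixes. `cfg` : if `L w` there is a configuration `x` with first word `w` all of whose words are in `L`: choose an extension symbol
`g v` for every `v ∈ L` (`g v = 0` otherwise); `w_0 = w`, `w_{k+1} = w_k ++ [g w_k]` (all in `L`); let `s i` be the entry `i` of `w_{i+1}` (`List.getD`; `w_k` has length `w.length + k` and `w_k <+: w_{k+1}`), and
`x = fun u => Equiv.intEquivNat.symm (s (e.symm u))` (as an element of `Config d`; `sy e x i = s i` by `Equiv.symm_apply_apply`, `Equiv.apply_symm_apply`). Then `wd e x (w.length + k) = w_k` and the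
shorter words are prefixes of `w`.
`lang_pre`: prefixes of words of `L` are in `L` (induction, `List.reverseRecOn` or on the length difference with `wd_succ`).
-/

set_option autoImplicit false

namespace H55.CK

open H76.CB

variable {d : ℕ} {e : ℕ ≃ (Fin d → ℤ)} {L : List ℕ → Prop}

theorem lang_pre (h2 : ∀ w c, L (w ++ [c]) → L w) (w w' : List ℕ) (h : L (w ++ w')) : L w := by
  induction w' using List.reverseRecOn with
  | nil => simpa using h
  | append_singleton l a ih =>
    rw [← List.append_assoc] at h
    exact ih (h2 _ _ h)

private noncomputable def WW (g : List ℕ → ℕ) (w : List ℕ) : ℕ → List ℕ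
  | 0 => w
  | k + 1 => WW g w k ++ [g (WW g w k)]

private theorem ww_length (g : List ℕ → ℕ) (w : List ℕ) (k : ℕ) : (WW g w k).length = w.length + k := by
  induction k with
  | zero => rfl
  | succ k ih =>
    show (WW g w k ++ [g (WW g w k)]).length = _
    rw [List.length_append, ih]
    rfl

private theorem ww_pre (g : List ℕ → ℕ) (w : List ℕ) (k m : ℕ) : WW g w k <+: WW g w (k + m) := by
  induction m with
  | zero => exact List.prefix_refl _
  | succ m ih =>
    exact ih.trans (List.prefix_append _ _)

private theorem ww_get (g : List ℕ → ℕ) (w : List ℕ) (k i : ℕ) (hi : i < w.length + k) :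
    (WW g w k)[i]? = some ((WW g w (i + 1)).getD i 0) := by
  have h1 : i < (WW g w (i + 1)).length := by
    rw [ww_length]
    omega
  have h2 : i < (WW g w k).length := by
    rw [ww_length]
    omega
  have h3 : (WW g w (i + 1))[i]? = some ((WW g w (i + 1)).getD i 0) := by
    rw [List.getD_eq_getElem?_getD, List.getElem?_eq_getElem h1]
    rfl
  rw [← h3]
  rcases le_total k (i + 1) with h | h
  · obtain ⟨m, hm⟩ := Nat.exists_eq_add_of_le h
    obtain ⟨t, ht⟩ := ww_pre g w k m
    rw [hm, ← ht, List.getElem?_append_left h2]
  · obtain ⟨m, rfl⟩ := Nat.exists_eq_add_of_le h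
    obtain ⟨t, ht⟩ := ww_pre g w (i + 1) m
    rw [← ht, List.getElem?_append_left h1]

theorem cfg (h1 : ∀ w, L w → ∃ c, L (w ++ [c])) (h2 : ∀ w c, L (w ++ [c]) → L w) {w : List ℕ} (hw : L w) :
    ∃ x : Config d, wd e x w.length = w ∧ ∀ n, L (wd e x n) := by
  classical
  have h3 : ∀ v : List ℕ, ∃ c, L v → L (v ++ [c]) := by
    intro v
    by_cases hv : L v
    · obtain ⟨c, hc⟩ := h1 v hv
      exact ⟨c, fun _ => hc⟩
    · exact ⟨0, fun h => absurd h hv⟩
  choose g hg using h3
  have hL : ∀ k, L (WW g w k) := by
    intro k
    induction k with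
    | zero => exact hw
    | succ k ih => exact hg _ ih
  obtain ⟨s, hs⟩ : ∃ s : ℕ → ℕ, s = fun i => (WW g w (i + 1)).getD i 0 := ⟨_, rfl⟩
  obtain ⟨x, hx⟩ : ∃ x : Config d, x = fun u => Equiv.intEquivNat.symm (s (e.symm u)) := ⟨_, rfl⟩
  have hsy : ∀ i, sy e x i = s i := by
    intro i
    show Equiv.intEquivNat (x (e i)) = s i
    rw [hx]
    show Equiv.intEquivNat (Equiv.intEquivNat.symm (s (e.symm (e i)))) = s i
    rw [Equiv.apply_symm_apply, Equiv.symm_apply_apply]
  have hwd : ∀ k, wd e x (w.length + k) = WW g w k := by
    intro k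
    refine List.ext_getElem? fun i => ?_
    by_cases hi : i < w.length + k
    · rw [ww_get g w k i hi]
      have h4 : i < (wd e x (w.length + k)).length := by
        rw [wd_length]
        exact hi
      rw [List.getElem?_eq_getElem h4]
      congr 1
      show ((List.range (w.length + k)).map (sy e x))[i] = _
      rw [List.getElem_map, List.getElem_range, hsy, hs]
    · have h4 : (wd e x (w.length + k)).length ≤ i := by
        rw [wd_length]
        omega
      have h5 : (WW g w k).length ≤ i := by
        rw [ww_length]
        omega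
      rw [List.getElem?_eq_none h4, List.getElem?_eq_none h5]
  refine ⟨x, hwd 0, fun n => ?_⟩
  have h4 : ∀ m, L (wd e x (n + m)) → L (wd e x n) := by
    intro m
    induction m with
    | zero => exact fun h => h
    | succ m ih =>
      intro h
      rw [← add_assoc, wd_succ] at h
      exact ih (h2 _ _ h)
  refine h4 w.length ?_
  rw [add_comm, hwd]
  exact hL n

end H55.CK
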