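import Pool.Agent.H55.CK.Defs

/-!
# The Kleene-Brouwer order (definitions)

`KB l l'`: `l` is a proper extension of `l'`, or `l` is smaller than `l'` at the first place where both lists have an entry and the entries differ.
`KBN V` is the order on `ℕ` (codes of lists) in which the codes of non-members of `V` come first, in their natural order, and then the codes of the
members of `V` in the Kleene-Brouwer order.
-/

set_option autoImplicit false

namespace H55.CK

/-- the Kleene-Brouwer order of finite sequences: extensions come before -/
def KB : List ℕ → List ℕ → Prop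
  | [], _ => False
  | _ :: _, [] => True
  | a :: l, b :: l' => a < b ∨ (a = b ∧ KB l l')

/-- the Kleene-Brouwer order of the tree `V` on codes, the codes of the non-members first -/
def KBN (V : List ℕ → Prop) (m n : ℕ) : Prop :=
  (V (lst m) ∧ V (lst n) ∧ KB (lst m) (lst n)) ∨ (¬ V (lst m) ∧ V (lst n)) ∨
    (¬ V (lst m) ∧ ¬ V (lst n) ∧ m < n)

/-- the tree of sequences of pairs whose second components are `r`-decreasing -/
def DS (r : ℕ → ℕ → Prop) (l : List ℕ) : Prop :=
  ∀ i : ℕ, i + 1 < l.length → r (l.getD (i + 1) 0).unpair.2 (l.getD i 0).unpair.2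

/-- first label coded by an entry of a splitting scheme -/
def lab1 (a : ℕ) : List Bool := (lst a.unpair.1).map Nat.bodd

/-- second label coded by an entry of a splitting scheme -/
def lab2 (a : ℕ) : List Bool := (lst a.unpair.2).map Nat.bodd

/-- label of the node `m` of the binary tree (root `1`, children `2 m`, `2 m + 1`); the entry `i` of `w` codes the labels of the two children of the
node `i + 1` -/
def node (w : List ℕ) (m : ℕ) : List Bool :=
  if m < 2 then [] else if m % 2 = 0 then lab1 (w.getD (m / 2 - 1) 0) else lab2 (w.getD (m / 2 - 1) 0)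

/-- the tree of splitting schemes of `T`: every entry splits the label of its node into two incompatible labels in `T` -/
def Sch (T : List Bool → Prop) (w : List ℕ) : Prop :=
  ∀ i < w.length, (node w (i + 1) <+: lab1 (w.getD i 0) ∧ node w (i + 1) <+: lab2 (w.getD i 0)) ∧
    (¬ lab1 (w.getD i 0) <+: lab2 (w.getD i 0) ∧ ¬ lab2 (w.getD i 0) <+: lab1 (w.getD i 0)) ∧
    T (lab1 (w.getD i 0)) ∧ T (lab2 (w.getD i 0))

end H55.CK
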