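import Pool.Agent.H55.CK.Comp
import Pool.Agent.H55.CK.KBDef

/-!
# Module KBComp: the order `KBN V` is computable if `V` is

* `kb_iff`: by induction on `l, l'` (`List.getD_cons_succ`, the witness `i` for the tails gives `i + 1`; `i = 0` for the first entries).
* `kb_prim`: by `kb_iff`; bounded quantifiers: `PrimrecRel.exists_lt`, `PrimrecRel.forall_lt` (relations `R x y` with `x < n`; a parameter `y` may be a pair),
  `Primrec.list_getElem?`, `Primrec.list_getD`, `Primrec.list_length`, `Primrec.eq`, `Primrec.nat_lt`, `PrimrecPred.and`, `PrimrecPred.or`.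
* `kbn_comp`: `cp_and`, `cp_or`, `ComputablePred.not`, `cp_comp` (with `prim_lst.to_comp`), `cp_of_prim`.
-/

set_option autoImplicit false

namespace H55.CK

theorem kb_iff (l l' : List ℕ) : KB l l' ↔ ∃ i < l.length, (∀ j < i, l[j]? = l'[j]?) ∧
    (i = l'.length ∨ (i < l'.length ∧ l.getD i 0 < l'.getD i 0)) := by
  induction l generalizing l' with
  | nil =>
    rw [KB]
    constructor
    · exact False.elim
    · rintro ⟨i, hi, -⟩
      exact absurd hi (Nat.not_lt_zero i)
  | cons a l ih =>
    cases l' with
    | nil =>
      rw [KB]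
      refine ⟨fun _ => ⟨0, Nat.succ_pos _, fun j hj => absurd hj (Nat.not_lt_zero j), Or.inl rfl⟩,
        fun _ => trivial⟩
    | cons b l' =>
      rw [KB, ih l']
      constructor
      · rintro (h | ⟨rfl, i, hi, h1, h2⟩)
        · exact ⟨0, Nat.succ_pos _, fun j hj => absurd hj (Nat.not_lt_zero j),
            Or.inr ⟨Nat.succ_pos _, by simpa using h⟩⟩
        · refine ⟨i + 1, Nat.succ_lt_succ hi, ?_, ?_⟩
          · intro j hj
            cases j with
            | zero => simp
            | succ j =>
              rw [List.getElem?_cons_succ, List.getElem?_cons_succ]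
              exact h1 j (by omega)
          · rcases h2 with h2 | ⟨h2, h3⟩
            · left
              rw [h2, List.length_cons]
            · right
              rw [List.length_cons, List.getD_cons_succ, List.getD_cons_succ]
              exact ⟨by omega, h3⟩
      · rintro ⟨i, hi, h1, h2⟩
        cases i with
        | zero =>
          left
          rcases h2 with h2 | ⟨h2, h3⟩
          · simp at h2
          · simpa using h3
        | succ i =>
          right
          have h0 := h1 0 (Nat.succ_pos i)
          have hab : a = b := by simpa using h0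
          refine ⟨hab, i, by simpa using hi, fun j hj => ?_, ?_⟩
          · have h4 := h1 (j + 1) (by omega)
            rwa [List.getElem?_cons_succ, List.getElem?_cons_succ] at h4
          · rcases h2 with h2 | ⟨h2, h3⟩
            · left
              rw [List.length_cons] at h2
              omega
            · right
              rw [List.getD_cons_succ, List.getD_cons_succ] at h3
              rw [List.length_cons] at h2
              exact ⟨by omega, h3⟩

theorem kb_prim : PrimrecPred fun p : List ℕ × List ℕ => KB p.1 p.2 := by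
  have h1 : PrimrecRel fun (j : ℕ) (p : List ℕ × List ℕ) => p.1[j]? = p.2[j]? :=
    Primrec.eq.comp (Primrec.list_getElem?.comp (Primrec.fst.comp Primrec.snd) Primrec.fst)
      (Primrec.list_getElem?.comp (Primrec.snd.comp Primrec.snd) Primrec.fst)
  have h2 : PrimrecRel fun (i : ℕ) (p : List ℕ × List ℕ) => ∀ j ∈ List.range i, p.1[j]? = p.2[j]? :=
    h1.forall_mem_list.comp (Primrec.list_range.comp Primrec.fst) Primrec.snd
  have h3 : PrimrecRel fun (i : ℕ) (p : List ℕ × List ℕ) => i = p.2.length :=
    Primrec.eq.comp Primrec.fst (Primrec.list_length.comp (Primrec.snd.comp Primrec.snd))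
  have h4 : PrimrecRel fun (i : ℕ) (p : List ℕ × List ℕ) => i < p.2.length :=
    Primrec.nat_lt.comp Primrec.fst (Primrec.list_length.comp (Primrec.snd.comp Primrec.snd))
  have h5 : PrimrecRel fun (i : ℕ) (p : List ℕ × List ℕ) => p.1.getD i 0 < p.2.getD i 0 :=
    Primrec.nat_lt.comp
      ((Primrec.list_getD 0).comp (Primrec.fst.comp Primrec.snd) Primrec.fst)
      ((Primrec.list_getD 0).comp (Primrec.snd.comp Primrec.snd) Primrec.fst)
  have h6 : PrimrecRel fun (i : ℕ) (p : List ℕ × List ℕ) => (∀ j ∈ List.range i, p.1[j]? = p.2[j]?) ∧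
      (i = p.2.length ∨ (i < p.2.length ∧ p.1.getD i 0 < p.2.getD i 0)) :=
    PrimrecPred.and h2 (PrimrecPred.or h3 (PrimrecPred.and h4 h5))
  have h7 : PrimrecPred fun p : List ℕ × List ℕ => ∃ i ∈ List.range p.1.length,
      (∀ j ∈ List.range i, p.1[j]? = p.2[j]?) ∧
      (i = p.2.length ∨ (i < p.2.length ∧ p.1.getD i 0 < p.2.getD i 0)) :=
    h6.exists_mem_list.comp (Primrec.list_range.comp (Primrec.list_length.comp Primrec.fst)) Primrec.id
  refine h7.of_eq fun p => ?_
  rw [kb_iff]
  simp only [List.mem_range]

theorem kbn_comp {V : List ℕ → Prop} (hV : ComputablePred V) :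
    ComputablePred fun p : ℕ × ℕ => KBN V p.1 p.2 := by
  have hl : Computable lst := prim_lst.to_comp
  have h1 : ComputablePred fun p : ℕ × ℕ => V (lst p.1) := cp_comp hV (hl.comp Computable.fst)
  have h2 : ComputablePred fun p : ℕ × ℕ => V (lst p.2) := cp_comp hV (hl.comp Computable.snd)
  have h3 : ComputablePred fun p : ℕ × ℕ => KB (lst p.1) (lst p.2) :=
    cp_comp (cp_of_prim kb_prim)
      (Computable.pair (hl.comp Computable.fst) (hl.comp Computable.snd))
  have h4 : ComputablePred fun p : ℕ × ℕ => p.1 < p.2 :=
    cp_of_prim (Primrec.nat_lt.comp Primrec.fst Primrec.snd)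
  exact cp_or (cp_and h1 (cp_and h2 h3)) (cp_or (cp_and h1.not h2)
    (cp_and h1.not (cp_and h2.not h4)))

end H55.CK
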