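import Pool.Agent.H55.CK.KB

/-!
# Module KBWf: the Kleene-Brouwer order is well-founded on trees without infinite branch

* `kb_wf`: call `v` an extension of `w` if `w <+: v`. The relation `C v w := V w ∧ V v ∧ ∃ a, v = w ++ [a]` is well-founded: otherwise there is a sequence `w_{n+1} = w_n ++ [f n]` in `V` (e.g. from
  `RelEmbedding`/`exists descending sequence`, `not_acc` and choice), and the entries of `w_0` followed by `f` are an infinite branch of `V` (`V` is closed under prefixes by `IsTree.pre`).
  CLAIM by well-founded induction on `w` (for `C`, `V w`): every `v` with `V v`, `w <+: v` is accessible for the relation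
  `R_w v v' := V v ∧ V v' ∧ w <+: v ∧ w <+: v' ∧ KB v v'`. Proof: first for the `v` extending `w ++ [a]`, by strong induction on `a` and, inside, by induction
  on the accessibility of `v` for `R_{w ++ [a]}` (induction hypothesis for the child `w ++ [a]`, which is in `V` because `V` is a tree): a predecessor of `v`
  in `R_w` extends `w ++ [b]` with `b < a` (strong induction), or extends `w ++ [a]` (inner induction); it is not `w` itself since `KB w v` is false for an
  extension `v` of `w`. Then `w` itself: its predecessors are proper extensions of `w`. (Useful: `KB (w ++ l) (w ++ l') ↔ KB l l'`, by induction on `w`.)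
  For `w = []`, `R_w` is the relation in the statement.
* `kbn_wo`: trichotomy and transitivity by cases (`kb_tri`, `kb_trans`; `lst` is injective by `cod_lst`); well-foundedness: the non-members are accessible by strong
  induction on the code, then the members by `kb_wf` (through `lst`).
-/

set_option autoImplicit false

namespace H55.CK

theorem kb_append (w l l' : List ℕ) : KB (w ++ l) (w ++ l') ↔ KB l l' := by
  induction w with
  | nil => rfl
  | cons a w ih =>
    show (a < a ∨ (a = a ∧ KB (w ++ l) (w ++ l'))) ↔ KB l l'
    simp [ih]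

/-- not extensions of `w`, but before the child `w ++ [a]`: before `w` -/
private theorem kb_left (w u : List ℕ) (a : ℕ) (h : KB u (w ++ [a])) (hn : ¬ w <+: u) : KB u w := by
  induction w generalizing u with
  | nil => exact absurd List.nil_prefix hn
  | cons b w ih =>
    cases u with
    | nil => exact h.elim
    | cons c u =>
      rcases h with h | ⟨h, h'⟩
      · exact Or.inl h
      · subst h
        refine Or.inr ⟨rfl, ih u h' fun hp => hn ?_⟩
        rw [List.cons_prefix_cons]
        exact ⟨rfl, hp⟩

private theorem tree_pre {V : List ℕ → Prop} (hV : IsTree V) (w l : List ℕ) (h : V (w ++ l)) : V w := by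
  induction l using List.reverseRecOn with
  | nil => simpa using h
  | append_singleton l a ih =>
    refine ih (hV.pre _ a ?_)
    rwa [List.append_assoc]

private theorem tree_prefix {V : List ℕ → Prop} (hV : IsTree V) {w v : List ℕ} (h : V v) (hp : w <+: v) : V w := by
  obtain ⟨l, rfl⟩ := hp
  exact tree_pre hV w l h

/-- the claim at the node `w` -/
private def Pc (V : List ℕ → Prop) (w : List ℕ) : Prop :=
  (∀ u, V u → KB u w → ¬ w <+: u → Acc (fun l l' : List ℕ => V l ∧ V l' ∧ KB l l') u) →
    ∀ v, V v → w <+: v → Acc (fun l l' : List ℕ => V l ∧ V l' ∧ KB l l') v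

private theorem pc_step (V : List ℕ → Prop) (w : List ℕ) (h : ∀ a, Pc V (w ++ [a])) : Pc V w := by
  intro H
  have hc : ∀ a : ℕ, ∀ v, V v → (w ++ [a]) <+: v → Acc (fun l l' : List ℕ => V l ∧ V l' ∧ KB l l') v := by
    intro a
    induction a using Nat.strong_induction_on with
    | _ a ih =>
      refine h a fun u hu hk hn => ?_
      by_cases hw : w <+: u
      · obtain ⟨l, rfl⟩ := hw
        rw [kb_append] at hk
        cases l with
        | nil => exact hk.elim
        | cons b l =>
          rcases hk with hb | ⟨hb, -⟩
          · refine ih b hb _ hu ⟨l, ?_⟩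
            simp
          · subst hb
            exact absurd ⟨l, by simp⟩ hn
      · exact H u hu (kb_left w u a hk hw) hw
  intro v hv hwv
  obtain ⟨l, rfl⟩ := hwv
  cases l with
  | cons a l => exact hc a _ hv ⟨l, by simp⟩
  | nil =>
    rw [List.append_nil] at hv ⊢
    refine Acc.intro _ fun u ⟨hu, _, hk⟩ => ?_
    by_cases hw : w <+: u
    · obtain ⟨l, rfl⟩ := hw
      cases l with
      | nil =>
        rw [List.append_nil] at hk
        exact absurd hk (kb_irrefl w)
      | cons a l => exact hc a _ hu ⟨l, by simp⟩
    · exact H u hu hk hw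

open Classical in
private theorem pc_nil {V : List ℕ → Prop} (hV : IsTree V) (hN : NoPath V) : Pc V [] := by
  by_contra h0
  have hstep : ∀ w, ∃ a, ¬ Pc V w → ¬ Pc V (w ++ [a]) := by
    intro w
    by_cases hw : Pc V w
    · exact ⟨0, fun h => absurd hw h⟩
    · by_contra hcon
      push Not at hcon
      exact hw (pc_step V w fun a => (hcon a).2)
  choose nx hnx using hstep
  let s : ℕ → List ℕ := fun n => Nat.rec [] (fun _ l => l ++ [nx l]) n
  have hs : ∀ n, ¬ Pc V (s n) := by
    intro n
    induction n with
    | zero => exact h0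
    | succ n ih => exact hnx _ ih
  have hf : ∀ n, (List.range n).map (fun k => nx (s k)) = s n := by
    intro n
    induction n with
    | zero => rfl
    | succ n ih =>
      rw [List.range_succ, List.map_append, ih]
      rfl
  refine hN ⟨fun k => nx (s k), fun n => ?_⟩
  rw [hf n]
  have h1 := hs n
  unfold Pc at h1
  push Not at h1
  obtain ⟨_, v, hv, hp, _⟩ := h1
  exact tree_prefix hV hv hp

theorem kb_wf {V : List ℕ → Prop} (hV : IsTree V) (hN : NoPath V) :
    WellFounded fun l l' : List ℕ => V l ∧ V l' ∧ KB l l' := by
  have h := pc_nil hV hN fun u _ _ hn => absurd List.nil_prefix hn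
  refine ⟨fun v => ?_⟩
  by_cases hv : V v
  · exact h v hv List.nil_prefix
  · exact Acc.intro _ fun u hu => absurd hu.2.1 hv

theorem kbn_wo {V : List ℕ → Prop} (hV : IsTree V) (hN : NoPath V) : IsWellOrder ℕ (KBN V) := by
  have hinj : ∀ m n : ℕ, lst m = lst n → m = n := fun m n h => by
    rw [← cod_lst m, ← cod_lst n, h]
  have hout : ∀ n, ¬ V (lst n) → Acc (KBN V) n := by
    intro n
    induction n using Nat.strong_induction_on with
    | _ n ih =>
      intro hn
      refine Acc.intro _ fun m hm => ?_
      rcases hm with ⟨_, h, _⟩ | ⟨_, h⟩ | ⟨h1, _, h3⟩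
      · exact absurd h hn
      · exact absurd h hn
      · exact ih m h3 h1
  have hin : ∀ l : List ℕ, Acc (fun l l' : List ℕ => V l ∧ V l' ∧ KB l l') l → ∀ n, lst n = l → Acc (KBN V) n := by
    intro l hl
    induction hl with
    | intro l _ ih =>
      intro n hn
      refine Acc.intro _ fun m hm => ?_
      rcases hm with ⟨h1, h2, h3⟩ | ⟨h1, _⟩ | ⟨h1, _, _⟩
      · exact ih (lst m) ⟨h1, hn ▸ h2, hn ▸ h3⟩ m rfl
      · exact hout m h1
      · exact hout m h1
  have hwf : IsWellFounded ℕ (KBN V) := ⟨⟨fun n => hin _ ((kb_wf hV hN).apply _) n rfl⟩⟩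
  have htr : Std.Trichotomous (KBN V) := by
    refine trichotomous_def.2 ?_
    intro a b hab hba
    by_cases ha : V (lst a) <;> by_cases hb : V (lst b)
    · rcases kb_tri (lst a) (lst b) with h | h | h
      · exact absurd (Or.inl ⟨ha, hb, h⟩) hab
      · exact hinj a b h
      · exact absurd (Or.inl ⟨hb, ha, h⟩) hba
    · exact absurd (Or.inr (Or.inl ⟨hb, ha⟩)) hba
    · exact absurd (Or.inr (Or.inl ⟨ha, hb⟩)) hab
    · rcases lt_trichotomy a b with h | h | h
      · exact absurd (Or.inr (Or.inr ⟨ha, hb, h⟩)) hab
      · exact h
      · exact absurd (Or.inr (Or.inr ⟨hb, ha, h⟩)) hba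
  exact { }

end H55.CK
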