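import Pool.Agent.H55.CK.DSeqT
import Pool.Agent.H55.CK.KBWf
import Pool.Agent.H55.CK.KBComp

/-!
# Module DSeq: a computable well-order with a point of limit rank at least the order type of a given one

`R = KBN (DS r)`, `v = cod []`.
`ds_rk`: for `w ∈ DS r` let `ρ w = type r` if `w = []`, else `typein r a`, `a` the second component of the last entry `w.getD (w.length - 1) 0`. CLAIM (induction on `α`): if `DS r w`, `α ≤ ρ w`
then `HasRk R α (cod w)` (`hasRk_iff`). Let `γ < α`. There is `a` with `typein r a = γ` (`Ordinal.typein_surj`, `γ < type r`), and `r a (last)` because `typein` reflects the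
order; so `w ++ [pair n a] ∈ DS r` for every `n` (`ds_snoc`). These children are below `w` (`kb_ext`), which gives `∃ y, R y (cod w)`. Let `R y (cod w)`. If `lst y ∉ DS r` take
`z = cod (w ++ [pair 0 a])`. Otherwise `KB (lst y) w`; take `N` from `kb_far` and `z = cod (w ++ [pair N a])` (`Nat.left_le_pair`): `R y z`, `R z (cod w)`, and
`HasRk R γ z` by the induction hypothesis, as `ρ (w ++ [pair N a]) = typein r a = γ`.
`exists_rk`: `R`, `v` as above; `y = cod [0]` (`DS r [0]`, `kb_ext`).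
-/

set_option autoImplicit false

namespace H55.CK

open Ordinal

open Classical in
/-- the rank of a node -/
private noncomputable def rho (r : ℕ → ℕ → Prop) (hr : IsWellOrder ℕ r) (w : List ℕ) : Ordinal.{0} :=
  if w = [] then @Ordinal.type ℕ r hr else (@Ordinal.typein ℕ r hr).toRelEmbedding (w.getD (w.length - 1) 0).unpair.2

private theorem rho_snoc (r : ℕ → ℕ → Prop) (hr : IsWellOrder ℕ r) (w : List ℕ) (c : ℕ) :
    rho r hr (w ++ [c]) = (@Ordinal.typein ℕ r hr).toRelEmbedding c.unpair.2 := by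
  unfold rho
  rw [if_neg (by simp)]
  congr 2
  have h1 : (w ++ [c]).length - 1 = w.length := by simp
  rw [h1, List.getD_append_right _ _ _ _ le_rfl]
  simp

private theorem rk_main {r : ℕ → ℕ → Prop} (hr : IsWellOrder ℕ r) (α : Ordinal.{0}) :
    ∀ w, DS r w → α ≤ rho r hr w → HasRk (KBN (DS r)) α (cod w) := by
  induction α using WellFoundedLT.induction with
  | ind α ih =>
    intro w hw hα
    rw [hasRk_iff]
    intro γ hγ
    have hγr : γ < rho r hr w := hγ.trans_le hα
    have hγt : γ < @Ordinal.type ℕ r hr := by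
      unfold rho at hγr
      split_ifs at hγr with h
      · exact hγr
      · exact hγr.trans (@Ordinal.typein_lt_type ℕ r hr _)
    obtain ⟨a, ha⟩ := @Ordinal.typein_surj ℕ r hr γ hγt
    have hchild : ∀ n, DS r (w ++ [Nat.pair n a]) := by
      intro n
      rw [ds_snoc]
      refine ⟨hw, fun hne => ?_⟩
      rw [Nat.unpair_pair]
      unfold rho at hγr
      rw [if_neg hne, ← ha] at hγr
      exact (@Ordinal.typein_lt_typein ℕ r hr _ _).1 hγr
    have hbelow : ∀ n, KBN (DS r) (cod (w ++ [Nat.pair n a])) (cod w) := by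
      intro n
      refine Or.inl ?_
      rw [lst_cod, lst_cod]
      exact ⟨hchild n, hw, kb_ext w _⟩
    have hrk : ∀ n, HasRk (KBN (DS r)) γ (cod (w ++ [Nat.pair n a])) := by
      intro n
      refine ih γ hγ _ (hchild n) ?_
      rw [rho_snoc, Nat.unpair_pair]
      exact le_of_eq ha.symm
    refine ⟨⟨_, hbelow 0⟩, fun y hy => ?_⟩
    rcases hy with ⟨h1, h2, h3⟩ | ⟨h1, h2⟩ | ⟨_, h2, _⟩
    · rw [lst_cod] at h3
      obtain ⟨N, hN⟩ := kb_far h3
      refine ⟨_, Or.inl ?_, hbelow N, hrk N⟩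
      rw [lst_cod]
      exact ⟨h1, hchild N, hN _ (Nat.left_le_pair _ _)⟩
    · refine ⟨_, Or.inr (Or.inl ?_), hbelow 0, hrk 0⟩
      rw [lst_cod]
      exact ⟨h1, hchild 0⟩
    · rw [lst_cod] at h2
      exact absurd hw h2

theorem ds_rk {r : ℕ → ℕ → Prop} (hr : IsWellOrder ℕ r) :
    HasRk (KBN (DS r)) (@Ordinal.type ℕ r hr) (cod []) := by
  refine rk_main hr _ [] (ds_tree r).nil ?_
  unfold rho
  rw [if_pos rfl]

theorem exists_rk {r : ℕ → ℕ → Prop} (hr : CompWO r) : ∃ (R : ℕ → ℕ → Prop) (v : ℕ), CompWO R ∧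
    HasRk R (@Ordinal.type ℕ r hr.wo) v ∧ ∃ y, R y v := by
  refine ⟨KBN (DS r), cod [], ⟨kbn_wo (ds_tree r) (ds_noPath hr.wo), kbn_comp (ds_comp hr)⟩,
    ds_rk hr.wo, cod [0], Or.inl ?_⟩
  rw [lst_cod, lst_cod]
  have h : DS r ([] ++ [0]) := (ds_snoc r [] 0).2 ⟨(ds_tree r).nil, fun h => absurd rfl h⟩
  exact ⟨h, (ds_tree r).nil, kb_ext [] 0⟩

end H55.CK
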