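import Pool.Agent.H55.CK.Comp
import Pool.Agent.H55.CK.KBDef

/-!
# Module DSeqT: the tree of descending sequences

* `ds_snoc`: `(w ++ [a]).getD i 0 = w.getD i 0` for `i < w.length`, `(w ++ [a]).getD w.length 0 = a`. `ds_tree` from it (`DS r []` is trivial).
* `ds_noPath`: an infinite branch `f` gives `r (f (i+1)).unpair.2 (f i).unpair.2` for all `i` (from `DS r ((List.range (i+2)).map f)`), impossible by well-foundedness.
* `ds_comp`: `cp_all` and `cp_comp` (quantify over `i < l.length`, with the implication `i + 1 < l.length → ..`, `cp_imp`; the function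
  `(i, l) ↦ ((l.getD (i+1) 0).unpair.2, (l.getD i 0).unpair.2)` is primitive recursive: `Primrec.list_getD`, `Primrec.unpair`).
-/

set_option autoImplicit false

namespace H55.CK

theorem ds_snoc (r : ℕ → ℕ → Prop) (w : List ℕ) (c : ℕ) : DS r (w ++ [c]) ↔ DS r w ∧
    (w ≠ [] → r c.unpair.2 (w.getD (w.length - 1) 0).unpair.2) := by
  have hlast : (w ++ [c]).getD w.length 0 = c := by
    rw [List.getD_append_right _ _ _ _ le_rfl]
    simp
  constructor
  · intro h
    refine ⟨fun i hi => ?_, fun hw => ?_⟩
    · have h1 := h i (by simp only [List.length_append, List.length_singleton]; omega)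
      rwa [List.getD_append _ _ _ _ hi, List.getD_append _ _ _ _ (by omega)] at h1
    · have hpos : 0 < w.length := List.length_pos_iff.2 hw
      have h1 := h (w.length - 1) (by simp only [List.length_append, List.length_singleton]; omega)
      rw [Nat.sub_add_cancel hpos, hlast, List.getD_append _ _ _ _ (by omega)] at h1
      exact h1
  · rintro ⟨h1, h2⟩ i hi
    simp only [List.length_append, List.length_singleton] at hi
    rcases Nat.lt_or_ge (i + 1) w.length with h3 | h3
    · rw [List.getD_append _ _ _ _ h3, List.getD_append _ _ _ _ (by omega)]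
      exact h1 i h3
    · have h4 : i + 1 = w.length := by omega
      have h5 : w ≠ [] := by
        rintro rfl
        simp at h4
      have h6 := h2 h5
      have h7 : w.length - 1 = i := by omega
      rw [h7] at h6
      rw [h4, hlast, List.getD_append _ _ _ _ (by omega)]
      exact h6

theorem ds_tree (r : ℕ → ℕ → Prop) : IsTree (DS r) :=
  ⟨fun i hi => absurd hi (by simp), fun w a h => ((ds_snoc r w a).1 h).1⟩

theorem ds_noPath {r : ℕ → ℕ → Prop} (hr : IsWellOrder ℕ r) : NoPath (DS r) := by
  rintro ⟨f, hf⟩
  have h : ∀ i, r (f (i + 1)).unpair.2 (f i).unpair.2 := by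
    intro i
    have h1 := hf (i + 2) i (by simp)
    have e : ∀ j, j < i + 2 → ((List.range (i + 2)).map f).getD j 0 = f j := by
      intro j hj
      rw [List.getD_eq_getElem _ _ (by simpa using hj)]
      simp
    rwa [e i (by omega), e (i + 1) (by omega)] at h1
  have hwf : WellFounded r := hr.toIsWellFounded.wf
  obtain ⟨a, ⟨i, rfl⟩, hmin⟩ := hwf.has_min (Set.range fun i => (f i).unpair.2) ⟨_, 0, rfl⟩
  exact hmin _ ⟨i + 1, rfl⟩ (h i)

theorem ds_comp {r : ℕ → ℕ → Prop} (hr : CompWO r) : ComputablePred (DS r) := by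
  have h1 : ComputablePred fun q : ℕ × List ℕ => q.1 + 1 < q.2.length :=
    cp_of_prim (Primrec.nat_lt.comp (Primrec.succ.comp Primrec.fst)
      (Primrec.list_length.comp Primrec.snd))
  have h2 : Primrec fun q : ℕ × List ℕ =>
      ((q.2.getD (q.1 + 1) 0).unpair.2, (q.2.getD q.1 0).unpair.2) := by
    refine Primrec.pair (Primrec.snd.comp (Primrec.unpair.comp ?_))
      (Primrec.snd.comp (Primrec.unpair.comp ?_))
    · exact (Primrec.list_getD 0).comp Primrec.snd (Primrec.succ.comp Primrec.fst)
    · exact (Primrec.list_getD 0).comp Primrec.snd Primrec.fst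
  have h3 : ComputablePred fun q : ℕ × List ℕ =>
      r (q.2.getD (q.1 + 1) 0).unpair.2 (q.2.getD q.1 0).unpair.2 :=
    cp_comp hr.comp h2.to_comp
  have h4 := cp_all (p := fun i (l : List ℕ) => i + 1 < l.length →
    r (l.getD (i + 1) 0).unpair.2 (l.getD i 0).unpair.2) (cp_imp h1 h3)
    (f := List.length) Primrec.list_length.to_comp
  refine h4.of_eq fun l => ⟨fun h i hi => h i (by omega) hi, fun h i _ hi => h i hi⟩

end H55.CK
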