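import Pool.Agent.H76.CBShift

/-!
# The Cantor-Bendixson rank of the space of `d`-dimensional shifts is `ω₁^CK` (MP_73a9ed_an): definitions

`omega1CK`: the least ordinal above the order types of all computable well-orders of `ℕ` (`ComputablePred` is Mathlib's notion).
`Tl`: tilings of `ℤ × ℤ` by a finite set of tiles with nearest neighbour rules, translations, orbits, closures.
`Tiles r`: the interface between the two-dimensional construction (helper96) and the rest (helper55).
-/

set_option autoImplicit false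

namespace H55.CK

open Ordinal

/-- The least ordinal which is larger than the order types of all computable well-orders of `ℕ` (the Church-Kleene ordinal). -/
noncomputable def omega1CK : Ordinal.{0} :=
  sInf {α : Ordinal.{0} | ∀ (r : ℕ → ℕ → Prop) (_ : IsWellOrder ℕ r),
    ComputablePred (fun p : ℕ × ℕ => r p.1 p.2) → Ordinal.type r < α}

/-- `r` is a computable well-order of `ℕ` -/
structure CompWO (r : ℕ → ℕ → Prop) : Prop where
  wo : IsWellOrder ℕ r
  comp : ComputablePred fun p : ℕ × ℕ => r p.1 p.2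

/-- the list with number `n` -/
def lst (n : ℕ) : List ℕ := Denumerable.ofNat (List ℕ) n

/-- the number of a list -/
def cod (l : List ℕ) : ℕ := Encodable.encode l

@[simp] theorem lst_cod (l : List ℕ) : lst (cod l) = l := Denumerable.ofNat_encode l

@[simp] theorem cod_lst (n : ℕ) : cod (lst n) = n := Denumerable.encode_ofNat n

/-- `v` has limit rank at least `α` in the well-order `r` -/
def HasRk (r : ℕ → ℕ → Prop) (α : Ordinal.{0}) (v : ℕ) : Prop :=
  ∀ γ : Ordinal.{0}, γ < α → (∃ y, r y v) ∧ ∀ y, r y v → ∃ z, r y z ∧ r z v ∧ HasRk r γ z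
termination_by α

/-- the node `w` has rank at least `α` in the tree `V` -/
def HasTr (V : List ℕ → Prop) (α : Ordinal.{0}) (w : List ℕ) : Prop :=
  ∀ γ : Ordinal.{0}, γ < α → ∃ a, V (w ++ [a]) ∧ HasTr V γ (w ++ [a])
termination_by α

theorem hasRk_iff {r : ℕ → ℕ → Prop} {α : Ordinal.{0}} {v : ℕ} : HasRk r α v ↔
    ∀ γ : Ordinal.{0}, γ < α → (∃ y, r y v) ∧ ∀ y, r y v → ∃ z, r y z ∧ r z v ∧ HasRk r γ z := by
  rw [HasRk]

theorem hasTr_iff {V : List ℕ → Prop} {α : Ordinal.{0}} {w : List ℕ} : HasTr V α w ↔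
    ∀ γ : Ordinal.{0}, γ < α → ∃ a, V (w ++ [a]) ∧ HasTr V γ (w ++ [a]) := by
  rw [HasTr]

/-- trees of finite sequences -/
structure IsTree (V : List ℕ → Prop) : Prop where
  nil : V []
  pre : ∀ w a, V (w ++ [a]) → V w

/-- the tree has no infinite branch -/
def NoPath (V : List ℕ → Prop) : Prop := ¬ ∃ f : ℕ → ℕ, ∀ n, V ((List.range n).map f)

/-! ### Tilings -/

namespace Tl

variable {T : Type}

/-- the valid tilings -/
def X (H V : T → T → Prop) : Set (ℤ × ℤ → T) :=
  {x | ∀ a b, H (x (a, b)) (x (a + 1, b)) ∧ V (x (a, b)) (x (a, b + 1))}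

/-- translations -/
def sh (u : ℤ × ℤ) (x : ℤ × ℤ → T) : ℤ × ℤ → T := fun p => x (p + u)

/-- orbits -/
def Orb (x : ℤ × ℤ → T) : Set (ℤ × ℤ → T) := {y | ∃ u, sh u x = y}

/-- the closure in the product topology -/
def Cl (S : Set (ℤ × ℤ → T)) : Set (ℤ × ℤ → T) :=
  {y | ∀ n : ℕ, ∃ x ∈ S, ∀ a b : ℤ, |a| ≤ n → |b| ≤ n → x (a, b) = y (a, b)}

/-- the closed translation invariant subsets -/
def Sub (H V : T → T → Prop) : Set (Set (ℤ × ℤ → T)) :=
  {Z | Z ⊆ X H V ∧ Cl Z ⊆ Z ∧ ∀ u, ∀ x ∈ Z, sh u x ∈ Z}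

end Tl

open Tl in
/-- a tile set with countably many subsystems and a strictly increasing chain of subsystems along `r` -/
structure Tiles (r : ℕ → ℕ → Prop) where
  T : Type
  fin : Fintype T
  H : T → T → Prop
  V : T → T → Prop
  o : ℕ → ℤ × ℤ → T
  mem : ∀ v, o v ∈ X H V
  sub : ∀ j v, r j v → o j ∈ Cl (Orb (o v))
  new : ∀ v, o v ∉ Cl (⋃ j ∈ {j | r j v}, Orb (o j))
  countable : (Sub H V).Countable

open Tl in
/-- the subsystem generated by the predecessors of `v` -/
def Tiles.Y {r : ℕ → ℕ → Prop} (A : Tiles r) (v : ℕ) : Set (ℤ × ℤ → A.T) :=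
  Cl (⋃ j ∈ {j | r j v}, Orb (A.o j))

end H55.CK
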