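import Pool.Agent.H55.CK.CptA
import Pool.Agent.H55.CK.Defs

/-!
# Module Emb: tilings of the plane as configurations in dimension `k + 2`

`E T k x n = enc T (x (n 0, n 1))`.
* `E_inj`: evaluate at `n = Fin.cons a (Fin.cons b 0)` (`n 0 = a`, `n 1 = b`), `enc_inj`.
* `shift_E`: `shift u (E x) v = E x (u + v) = enc (x (u 0 + v 0, u 1 + v 1))` and `Tl.sh w x p = x (p + w)`.
* `agreeC_E`: `supNorm n ≤ R` gives `|n 0| ≤ R`, `|n 1| ≤ R`; conversely for `a, b` use the `n` with `n 0 = a`, `n 1 = b`, other coordinates `0`.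
* `cl_sh`: `Tl.Cl S` is translation invariant if `S` is: for `y ∈ Cl S`, `u = (a, b)`, `n`: take `x ∈ S` which agrees with `y` on the box of radius `n + |a| + |b|`, then `sh u x` agrees with `sh u y` on
  the box of radius `n`. `cl_cl`: idempotent. `cl_X`: the valid tilings are closed (look at the box of radius `max |a| |b| + 1`). `cl_mono`, `sub_cl`: direct.
* `exists_shift`: `exists_carrier` of `CptA` for `X = E '' Z`, alphabet `Finset.univ.image enc`; closed: if for every `R` some `E x_R`, `x_R ∈ Z`, agrees with `c` on the box of radius `R`, then the symbol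
  `c n` is in the range of `enc` and depends only on `n 0, n 1` (take `R ≥ supNorm n`, `supNorm n'`), so `c = E y` with `y (a, b) = enc⁻¹ (c (a, b, 0, .., 0))`, and `y ∈ Cl Z ⊆ Z` by `agreeC_E`. Shift
  invariance: `shift_E`. Then `InCB 0` by `iteratedDerivedSet_zero`.
-/

set_option autoImplicit false

namespace H55.CK

open H76.CB

/-- code of a tile -/
noncomputable def enc (T : Type) [Fintype T] (t : T) : ℤ := ((Fintype.equivFin T t : ℕ) : ℤ)

/-- a tiling as a configuration in dimension `k + 2` -/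
noncomputable def E (T : Type) [Fintype T] (k : ℕ) (x : ℤ × ℤ → T) : Config (k + 2) :=
  ((fun n => enc T (x (n 0, n 1))) : (Fin (k + 2) → ℤ) → ℤ)

variable {T : Type} [Fintype T] {k : ℕ}

private def nn (k : ℕ) (a b : ℤ) : Fin (k + 2) → ℤ := fun i => if i = 0 then a else if i = 1 then b else 0

private lemma nn_zero (a b : ℤ) : nn k a b 0 = a := by simp [nn]

private lemma nn_one (a b : ℤ) : nn k a b 1 = b := by simp [nn]

private lemma supNorm_nn (a b : ℤ) : supNorm (nn k a b) ≤ a.natAbs + b.natAbs := by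
  unfold supNorm
  refine Finset.sup_le fun i _ => ?_
  unfold nn
  split_ifs
  · omega
  · omega
  · simp

private lemma supNorm_nn' {a b : ℤ} {R : ℕ} (ha : |a| ≤ R) (hb : |b| ≤ R) : supNorm (nn k a b) ≤ R := by
  unfold supNorm
  refine Finset.sup_le fun i _ => ?_
  rw [Int.abs_eq_natAbs] at ha hb
  unfold nn
  split_ifs
  · exact_mod_cast ha
  · exact_mod_cast hb
  · simp

private lemma le_supNorm {d : ℕ} (n : Fin d → ℤ) (i : Fin d) : (n i).natAbs ≤ supNorm n :=
  Finset.le_sup (f := fun k => (n k).natAbs) (Finset.mem_univ i)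

theorem enc_inj : Function.Injective (enc T) := by
  intro s t h
  unfold enc at h
  have h1 : (Fintype.equivFin T s : ℕ) = (Fintype.equivFin T t : ℕ) := by exact_mod_cast h
  exact (Fintype.equivFin T).injective (Fin.ext h1)

private lemma E_apply (x : ℤ × ℤ → T) (n : Fin (k + 2) → ℤ) : E T k x n = enc T (x (n 0, n 1)) := rfl

theorem E_inj : Function.Injective (E T k) := by
  intro x y h
  funext p
  have h1 : E T k x (nn k p.1 p.2) = E T k y (nn k p.1 p.2) := by rw [h]
  rw [E_apply, E_apply, nn_zero, nn_one] at h1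
  exact enc_inj h1

theorem shift_E (u : Fin (k + 2) → ℤ) (x : ℤ × ℤ → T) : shift u (E T k x) = E T k (Tl.sh (u 0, u 1) x) := by
  refine Config.ext fun n => ?_
  show enc T (x ((u + n) 0, (u + n) 1)) = enc T (x ((n 0, n 1) + (u 0, u 1)))
  congr 2
  simp [add_comm]

theorem agreeC_E {R : ℕ} {x y : ℤ × ℤ → T} :
    agreeC R (E T k x) (E T k y) ↔ ∀ a b : ℤ, |a| ≤ R → |b| ≤ R → x (a, b) = y (a, b) := by
  constructor
  · intro h a b ha hb
    have h1 := h (nn k a b) (supNorm_nn' ha hb)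
    rw [E_apply, E_apply, nn_zero, nn_one] at h1
    exact enc_inj h1
  · intro h n hn
    rw [E_apply, E_apply]
    have h0 := le_supNorm n 0
    have h1 := le_supNorm n 1
    rw [h (n 0) (n 1) (by rw [Int.abs_eq_natAbs]; exact_mod_cast h0.trans hn)
      (by rw [Int.abs_eq_natAbs]; exact_mod_cast h1.trans hn)]

theorem sub_cl (S : Set (ℤ × ℤ → T)) : S ⊆ Tl.Cl S :=
  fun x hx _ => ⟨x, hx, fun _ _ _ _ => rfl⟩

theorem cl_mono {S S' : Set (ℤ × ℤ → T)} (h : S ⊆ S') : Tl.Cl S ⊆ Tl.Cl S' := by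
  intro y hy n
  obtain ⟨x, hx, hxy⟩ := hy n
  exact ⟨x, h hx, hxy⟩

theorem cl_cl (S : Set (ℤ × ℤ → T)) : Tl.Cl (Tl.Cl S) ⊆ Tl.Cl S := by
  intro y hy n
  obtain ⟨z, hz, hzy⟩ := hy n
  obtain ⟨x, hx, hxz⟩ := hz n
  exact ⟨x, hx, fun a b ha hb => (hxz a b ha hb).trans (hzy a b ha hb)⟩

theorem cl_sh {S : Set (ℤ × ℤ → T)} (h : ∀ u, ∀ x ∈ S, Tl.sh u x ∈ S) (u : ℤ × ℤ) {x : ℤ × ℤ → T}
    (hx : x ∈ Tl.Cl S) : Tl.sh u x ∈ Tl.Cl S := by
  intro n
  obtain ⟨z, hz, hzx⟩ := hx (n + u.1.natAbs + u.2.natAbs)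
  refine ⟨Tl.sh u z, h u z hz, fun a b ha hb => ?_⟩
  show z ((a, b) + u) = x ((a, b) + u)
  have e : ((a, b) + u : ℤ × ℤ) = (a + u.1, b + u.2) := rfl
  rw [e]
  refine hzx _ _ ?_ ?_
  · rw [abs_le] at ha ⊢
    omega
  · rw [abs_le] at hb ⊢
    omega

theorem cl_X {H V : T → T → Prop} : Tl.Cl (Tl.X H V) ⊆ Tl.X H V := by
  intro y hy a b
  obtain ⟨x, hx, hxy⟩ := hy (a.natAbs + b.natAbs + 1)
  have h0 : x (a, b) = y (a, b) := hxy a b (by rw [abs_le]; omega) (by rw [abs_le]; omega)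
  have h1 : x (a + 1, b) = y (a + 1, b) :=
    hxy (a + 1) b (by rw [abs_le]; omega) (by rw [abs_le]; omega)
  have h2 : x (a, b + 1) = y (a, b + 1) :=
    hxy a (b + 1) (by rw [abs_le]; omega) (by rw [abs_le]; omega)
  have h3 := hx a b
  rw [h0, h1, h2] at h3
  exact h3

theorem exists_shift {Z : Set (ℤ × ℤ → T)} (hcl : Tl.Cl Z ⊆ Z) (hne : Z.Nonempty)
    (hsh : ∀ u, ∀ x ∈ Z, Tl.sh u x ∈ Z) : InCB 0 (E T k '' Z) := by
  classical
  obtain ⟨S, hS⟩ := exists_carrier (X := E T k '' Z) (Finset.univ.image (enc T))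
    (by
      rintro _ ⟨x, -, rfl⟩ n
      exact Finset.mem_image_of_mem _ (Finset.mem_univ _))
    (by
      intro c hc
      have hc' : ∀ R : ℕ, ∃ x ∈ Z, agreeC R c (E T k x) := by
        intro R
        obtain ⟨_, ⟨x, hx, rfl⟩, h⟩ := hc R
        exact ⟨x, hx, h⟩
      choose x hxZ hx using hc'
      let y : ℤ × ℤ → T := fun p => x (p.1.natAbs + p.2.natAbs) p
      have key : ∀ (R : ℕ) (a b : ℤ), a.natAbs + b.natAbs ≤ R → x R (a, b) = y (a, b) := by
        intro R a b hR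
        have h1 := hx R (nn k a b) ((supNorm_nn a b).trans hR)
        have h2 := hx (a.natAbs + b.natAbs) (nn k a b) (supNorm_nn a b)
        rw [E_apply, nn_zero, nn_one] at h1 h2
        exact enc_inj (h1.symm.trans h2)
      refine ⟨y, hcl ?_, ?_⟩
      · intro n
        refine ⟨x (2 * n), hxZ _, fun a b ha hb => key _ _ _ ?_⟩
        rw [abs_le] at ha hb
        omega
      · refine Config.ext fun n => ?_
        have h1 := hx (max (supNorm n) ((n 0).natAbs + (n 1).natAbs)) n (le_max_left _ _)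
        rw [h1, E_apply, E_apply, key _ _ _ (le_max_right _ _)])
    (hne.image _)
    (by
      rintro u _ ⟨x, hx, rfl⟩
      exact ⟨_, hsh (u 0, u 1) x hx, (shift_E u x).symm⟩)
  refine ⟨S, hS, ?_⟩
  show S ∈ CantorBendixson.iteratedDerivedSet (Set.univ : Set (ShiftSpace (k + 2))) 0
  rw [CantorBendixson.iteratedDerivedSet_zero]
  exact Set.mem_univ _

end H55.CK
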