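import Pool.Agent.H55.CK.LLDef

/-!
# Module LLc: the shifts of tilings form a closed countable set

* `isClosed_LL`: as `isClosed_LL` in `Pool/Agent/H76/CBFinal.lean`, with the closedness of `E '' X` (it is the carrier of a shift by `exists_shift` and `cl_X` if `X` is nonempty, `isCompact_carrier`; empty
  otherwise) and `mem_of_closed_agree`.
* `countable_LL`: `S ↦ {x | E x ∈ carrier S}` is injective on `LL` (`carrier_injective`; `carrier S = E '' {x | E x ∈ carrier S}`) with values in `Tl.Sub H V` (closed: `Tl.Cl`, `agreeC_E`,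
  `mem_of_closed_agree`, `isCompact_carrier`; invariant: `shift_E` with `u = (a, b, 0, .., 0)`, `carrier_shift`; contained in `X` by `E_inj`). `Set.countable_of_injective_of_countable_image`.
-/

set_option autoImplicit false

namespace H55.CK

open H76.CB

variable {T : Type} [Fintype T]

omit [Fintype T] in
private lemma X_sh {H V : T → T → Prop} (u : ℤ × ℤ) (x : ℤ × ℤ → T) (hx : x ∈ Tl.X H V) : Tl.sh u x ∈ Tl.X H V := by
  intro a b
  have h := hx (a + u.1) (b + u.2)
  have e1 : (a + u.1 + 1, b + u.2) = (a + 1, b) + u := by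
    ext
    · show a + u.1 + 1 = a + 1 + u.1
      ring
    · rfl
  have e2 : (a + u.1, b + u.2 + 1) = (a, b + 1) + u := by
    ext
    · rfl
    · show b + u.2 + 1 = b + 1 + u.2
      ring
  have e0 : (a + u.1, b + u.2) = (a, b) + u := rfl
  rw [e1, e2, e0] at h
  exact h

private lemma isClosed_image (H V : T → T → Prop) (k : ℕ) : IsClosed (E T k '' Tl.X H V) := by
  rcases (Tl.X H V).eq_empty_or_nonempty with h | h
  · rw [h, Set.image_empty]
    exact isClosed_empty
  · obtain ⟨S, hS, -⟩ := exists_shift (k := k) (cl_X (H := H) (V := V)) h X_sh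
    rw [← hS]
    exact (isCompact_carrier S).isClosed

theorem isClosed_LL (H V : T → T → Prop) (k : ℕ) : IsClosed (LL H V k) := by
  rw [← closure_subset_iff_isClosed]
  intro S hS x hx
  rw [Metric.mem_closure_iff] at hS
  apply mem_of_closed_agree (isClosed_image H V k)
  intro R
  obtain ⟨T', hT, hd⟩ := hS ((1 / 2 : ℝ) ^ R) (by positivity)
  rw [space_dist_lt_iff] at hd
  obtain ⟨y, hy, hxy⟩ := hd.1 x hx
  exact ⟨y, hT hy, hxy⟩

theorem countable_LL {H V : T → T → Prop} (h : (Tl.Sub H V).Countable) (k : ℕ) : (LL H V k).Countable := by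
  let Φ : ShiftSpace (k + 2) → Set (ℤ × ℤ → T) := fun S => {x | E T k x ∈ carrier S}
  have hinj : Set.InjOn Φ (LL H V k) := by
    intro S hS S' hS' e
    apply carrier_injective
    ext x
    constructor
    · intro hx
      obtain ⟨w, -, rfl⟩ := hS hx
      have : w ∈ Φ S := hx
      rw [e] at this
      exact this
    · intro hx
      obtain ⟨w, -, rfl⟩ := hS' hx
      have : w ∈ Φ S' := hx
      rw [← e] at this
      exact this
  have himg : (Φ '' (LL H V k)).Countable := by
    refine h.mono ?_
    rintro _ ⟨S, hS, rfl⟩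
    refine ⟨?_, ?_, ?_⟩
    · intro x hx
      obtain ⟨w, hw, e⟩ := hS hx
      rw [← E_inj e]
      exact hw
    · intro y hy
      refine mem_of_closed_agree (isCompact_carrier S).isClosed fun R => ?_
      obtain ⟨x, hx, hxy⟩ := hy R
      exact ⟨E T k x, hx, agreeC_symm (agreeC_E.2 hxy)⟩
    · intro u x hx
      have h1 := carrier_shift S (Fin.cons u.1 (Fin.cons u.2 0) : Fin (k + 2) → ℤ) hx
      rw [shift_E] at h1
      exact h1
  exact Set.countable_of_injective_of_countable_image hinj himg

end H55.CK
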