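import Pool.Agent.H55.CK.LLDef

/-!
# Module LLo: the shifts of tilings form an open set

Radius `(1/2)^1`. Let `S ∈ LL` and `agreeS 1 (carrier S') (carrier S)`, `c ∈ carrier S'`. For every `u` there is a valid tiling `w u` with `agreeC 1 (shift u c) (E (w u))`. So
`c (u + v) = enc (w u (v 0, v 1))` for `supNorm v ≤ 1`. Hence `c u = enc (w u (0, 0))`; `c (u + v) = c u` for `v` a unit vector in a direction `≥ 2` (`v 0 = v 1 = 0`), so `c` depends only on the
coordinates `0, 1` (see `indep` in `Pool/Agent/H76/CBFinal.lean`, copy its proof); `c = E y` with `y (a, b) = w u (0, 0)`, `u = (a, b, 0, .., 0)`; the rules of `y` at `(a, b)` are those of `w u` at `(0, 0)`,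
since `y (a + 1, b) = w u (1, 0)`, `y (a, b + 1) = w u (0, 1)` (`enc_inj`). Compare `mem_range_of_local`, `isOpen_LL` in `Pool/Agent/H76/CBFinal.lean`.
-/

set_option autoImplicit false

namespace H55.CK

open H76.CB

variable {T : Type} [Fintype T]

/-- a function which does not change in the directions of `s` (copy of `H76.CB.indep`) -/
private lemma llo_indep {d : ℕ} {α : Type*} (f : (Fin d → ℤ) → α) (s : Finset (Fin d))
    (h : ∀ j ∈ s, ∀ u : Fin d → ℤ, f (Function.update u j (u j + 1)) = f u) :
    ∀ u v : Fin d → ℤ, (∀ j, j ∉ s → u j = v j) → f u = f v := by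
  have one : ∀ j ∈ s, ∀ (u : Fin d → ℤ) (c : ℤ), f (Function.update u j c) = f u := by
    intro j hj u c
    have key : ∀ t : ℤ, f (Function.update u j (u j + t)) = f u := by
      intro t
      induction t using Int.induction_on with
      | zero => simp
      | succ i ih =>
        have := h j hj (Function.update u j (u j + i))
        simp only [Function.update_self, Function.update_idem] at this
        rw [← ih, ← this, add_assoc]
      | pred i ih =>
        have := h j hj (Function.update u j (u j + (-(i:ℤ) - 1)))
        simp only [Function.update_self, Function.update_idem] at this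
        rw [← this]
        have e : u j + (-(i:ℤ) - 1) + 1 = u j + -(i:ℤ) := by ring
        rw [e, ih]
    have := key (c - u j)
    have e : u j + (c - u j) = c := by ring
    rwa [e] at this
  induction s using Finset.induction_on with
  | empty =>
    intro u v huv
    congr 1
    funext j
    exact huv j (by simp)
  | insert j s hj ih =>
    intro u v huv
    have h1 := one j (Finset.mem_insert_self j s) u (v j)
    rw [← h1]
    refine ih (fun i hi => h i (Finset.mem_insert_of_mem hi))
      (fun i hi => one i (Finset.mem_insert_of_mem hi)) _ _ (fun i hi => ?_)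
    by_cases hij : i = j
    · subst hij; rw [Function.update_self]
    · rw [Function.update_of_ne hij]
      exact huv i (by simp [hij, hi])

private lemma llo_supNorm {d : ℕ} (v : Fin d → ℤ) (h : ∀ i, (v i).natAbs ≤ 1) : supNorm v ≤ 1 :=
  Finset.sup_le fun i _ => h i

private lemma llo_local {H V : T → T → Prop} {k : ℕ} {c : Config (k + 2)}
    (h : ∀ u, ∃ x ∈ Tl.X H V, agreeC 1 (shift u c) (E T k x)) : c ∈ E T k '' Tl.X H V := by
  choose w hwX hw using h
  have hval : ∀ u v, supNorm v ≤ 1 → c (u + v) = enc T (w u (v 0, v 1)) := by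
    intro u v hv
    exact hw u v hv
  have hzero : supNorm (0 : Fin (k + 2) → ℤ) ≤ 1 := by simp [supNorm]
  have hdec : ∀ u, c u = enc T (w u (0, 0)) := by
    intro u
    have := hval u 0 hzero
    rwa [add_zero] at this
  have hcomp : ∀ u v, supNorm v ≤ 1 → w (u + v) (0, 0) = w u (v 0, v 1) := by
    intro u v hv
    apply enc_inj
    rw [← hval u v hv, ← hdec]
  have hupd : ∀ (u : Fin (k + 2) → ℤ) (j : Fin (k + 2)),
      Function.update u j (u j + 1) = u + Function.update (0 : Fin (k + 2) → ℤ) j 1 := by
    intro u j
    funext i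
    by_cases hij : i = j
    · subst hij; simp
    · simp [hij]
  have hnorm : ∀ j : Fin (k + 2), supNorm (Function.update (0 : Fin (k + 2) → ℤ) j 1) ≤ 1 := by
    intro j
    refine llo_supNorm _ fun i => ?_
    by_cases hij : i = j
    · subst hij; simp
    · simp [hij]
  -- the symbol depends only on the coordinates 0, 1
  have hdig : ∀ u v : Fin (k + 2) → ℤ, u 0 = v 0 → u 1 = v 1 → w u (0, 0) = w v (0, 0) := by
    intro u v h1 h2
    refine llo_indep (fun u => w u (0, 0)) (Finset.univ \ {0, 1}) (fun j hj u => ?_) u v (fun j hj => ?_)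
    · simp only [Finset.mem_sdiff, Finset.mem_univ, Finset.mem_insert, Finset.mem_singleton,
        true_and, not_or] at hj
      show w (Function.update u j (u j + 1)) (0, 0) = w u (0, 0)
      rw [hupd, hcomp u _ (hnorm j)]
      rw [Function.update_of_ne (Ne.symm hj.1), Function.update_of_ne (Ne.symm hj.2)]
      rfl
    · simp only [Finset.mem_sdiff, Finset.mem_univ, Finset.mem_insert, Finset.mem_singleton,
        true_and, not_not] at hj
      rcases hj with rfl | rfl
      · exact h1
      · exact h2
  have h01 : (1 : Fin (k + 2)) ≠ 0 := by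
    intro h
    have := congrArg Fin.val h
    simp at this
  set pos : ℤ → ℤ → (Fin (k + 2) → ℤ) := fun a b => Function.update (Function.update 0 0 a) 1 b with hpos
  have hpos0 : ∀ a b, pos a b 0 = a := by
    intro a b
    simp only [hpos]
    rw [Function.update_of_ne h01.symm, Function.update_self]
  have hpos1 : ∀ a b, pos a b 1 = b := by
    intro a b
    simp only [hpos]
    rw [Function.update_self]
  have hv : ∀ a b m n : ℤ, m.natAbs ≤ 1 → n.natAbs ≤ 1 →
      w (pos (a + m) (b + n)) (0, 0) = w (pos a b) (m, n) := by
    intro a b m n hm hn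
    have e1 : w (pos (a + m) (b + n)) (0, 0) = w (pos a b + pos m n) (0, 0) := by
      apply hdig
      · rw [hpos0, Pi.add_apply, hpos0, hpos0]
      · rw [hpos1, Pi.add_apply, hpos1, hpos1]
    have hn' : supNorm (pos m n) ≤ 1 := by
      refine llo_supNorm _ fun j => ?_
      simp only [hpos]
      by_cases h1 : j = 1
      · subst h1
        rw [Function.update_self]
        exact hn
      · rw [Function.update_of_ne h1]
        by_cases h2 : j = 0
        · subst h2
          rw [Function.update_self]
          exact hm
        · rw [Function.update_of_ne h2]; simp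
    rw [e1, hcomp _ _ hn', hpos0, hpos1]
  refine ⟨fun p => w (pos p.1 p.2) (0, 0), ?_, ?_⟩
  · intro a b
    have r := hwX (pos a b) 0 0
    simp only [zero_add] at r
    constructor
    · show H (w (pos a b) (0, 0)) (w (pos (a + 1) b) (0, 0))
      have := hv a b 1 0 (by simp) (by simp)
      rw [add_zero] at this
      rw [this]
      exact r.1
    · show V (w (pos a b) (0, 0)) (w (pos a (b + 1)) (0, 0))
      have := hv a b 0 1 (by simp) (by simp)
      rw [add_zero] at this
      rw [this]
      exact r.2
  · refine Config.ext fun u => ?_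
    rw [hdec u]
    show enc T (w (pos (u 0) (u 1)) (0, 0)) = enc T (w u (0, 0))
    rw [hdig (pos (u 0) (u 1)) u (hpos0 _ _) (hpos1 _ _)]

theorem isOpen_LL (H V : T → T → Prop) (k : ℕ) : IsOpen (LL H V k) := by
  rw [Metric.isOpen_iff]
  intro S hS
  refine ⟨(1 / 2 : ℝ) ^ 1, by positivity, fun S' hS' => ?_⟩
  rw [Metric.mem_ball, space_dist_lt_iff] at hS'
  intro c hc
  apply llo_local
  intro u
  obtain ⟨y, hy, hyc⟩ := hS'.1 _ (carrier_shift S' u hc)
  obtain ⟨w, hw, rfl⟩ := hS hy
  exact ⟨w, hw, hyc⟩

end H55.CK
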