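import Pool.Agent.H55.CK.Basic
import Pool.Agent.H55.CK.DSeq
import Pool.Agent.H55.CK.LLo
import Pool.Agent.H55.CK.LLc
import Pool.Agent.H55.CK.Chain

/-!
# Module Lower: the Cantor-Bendixson rank of the space of shifts in dimension `k + 2` is at least `ω₁^CK`
(assuming the construction of the tile sets)
-/

set_option autoImplicit false

namespace H55.CK

open H76.CB

theorem lower (h : ∀ r : ℕ → ℕ → Prop, CompWO r → Nonempty (Tiles r)) (k : ℕ) :
    omega1CK ≤ cbRank (ShiftSpace (k + 2)) := by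
  refine omega1CK_le fun r hr => ?_
  obtain ⟨R, v, hR, hv, hy⟩ := exists_rk hr
  obtain ⟨A⟩ := h R hR
  obtain ⟨S, hS, hSD⟩ := chain A hR.wo k _ hv hy
  refine lt_cbRank (isOpen_LL A.H A.V k) (isClosed_LL A.H A.V k) (countable_LL A.countable k) (x := S) ?_ hSD
  show carrier S ⊆ _
  rw [hS]
  refine Set.image_mono ?_
  have h1 : (⋃ j ∈ {j | R j v}, Tl.Orb (A.o j)) ⊆ Tl.X A.H A.V := by
    intro x hx
    simp only [Set.mem_iUnion] at hx
    obtain ⟨j, -, u, rfl⟩ := hx
    intro a b
    obtain ⟨h2, h3⟩ := A.mem j (a + u.1) (b + u.2)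
    refine ⟨?_, ?_⟩
    · show A.H (A.o j ((a, b) + u)) (A.o j ((a + 1, b) + u))
      have e1 : ((a, b) : ℤ × ℤ) + u = (a + u.1, b + u.2) := rfl
      have e2 : ((a + 1, b) : ℤ × ℤ) + u = (a + u.1 + 1, b + u.2) := by
        ext
        · show a + 1 + u.1 = a + u.1 + 1
          ring
        · rfl
      rw [e1, e2]
      exact h2
    · show A.V (A.o j ((a, b) + u)) (A.o j ((a, b + 1) + u))
      have e1 : ((a, b) : ℤ × ℤ) + u = (a + u.1, b + u.2) := rfl
      have e2 : ((a, b + 1) : ℤ × ℤ) + u = (a + u.1, b + u.2 + 1) := by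
        ext
        · rfl
        · show b + 1 + u.2 = b + u.2 + 1
          ring
      rw [e1, e2]
      exact h3
  exact (cl_mono h1).trans cl_X

end H55.CK
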