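import Pool.Agent.H55.CK.Upper
import Pool.Agent.H55.CK.Lower

/-!
# The Cantor-Bendixson rank of the space of `d`-dimensional shifts is `ω₁^CK` (assuming the tile sets)
-/

set_option autoImplicit false

namespace H55.CK

open H76.CB

theorem rank_eq (h : ∀ r : ℕ → ℕ → Prop, CompWO r → Nonempty (Tiles r)) (d : ℕ) (hd : 2 ≤ d) :
    cbRank (ShiftSpace d) = omega1CK := by
  obtain ⟨k, rfl⟩ : ∃ k, d = k + 2 := ⟨d - 2, by omega⟩
  exact le_antisymm (upper _ (by omega)) (lower h k)

end H55.CK
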