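import Pool.Agent.H55.CK.KBDef

/-!
# Module KB: the Kleene-Brouwer order is a linear order

`kb_irrefl`, `kb_trans`, `kb_tri`: induction on the lists (unfold `KB`, cases). `kb_ext`, `kb_far`: induction on `w`; in `kb_far` for `w = []`, `l = a :: l''`: take `N = a + 1`
(`KB (a :: l'') [c]` for `a < c`); for `w = b :: w'`, `l = a :: l''`: if `a < b` every `c` works, if `a = b` use the induction hypothesis.
-/

set_option autoImplicit false

namespace H55.CK

theorem kb_irrefl (l : List ℕ) : ¬ KB l l := by
  induction l with
  | nil => exact fun h => h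
  | cons a l ih =>
    rintro (h | ⟨-, h⟩)
    · exact lt_irrefl _ h
    · exact ih h

theorem kb_trans {l l' l'' : List ℕ} (h : KB l l') (h' : KB l' l'') : KB l l'' := by
  induction l generalizing l' l'' with
  | nil => exact (h : False).elim
  | cons a l ih =>
    cases l' with
    | nil => exact (h' : False).elim
    | cons b l' =>
      cases l'' with
      | nil => exact trivial
      | cons d l'' =>
        rcases h with h | ⟨rfl, h⟩ <;> rcases h' with h' | ⟨rfl, h'⟩
        · exact Or.inl (h.trans h')
        · exact Or.inl h
        · exact Or.inl h'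
        · exact Or.inr ⟨rfl, ih h h'⟩

theorem kb_tri (l l' : List ℕ) : KB l l' ∨ l = l' ∨ KB l' l := by
  induction l generalizing l' with
  | nil =>
    cases l' with
    | nil => exact Or.inr (Or.inl rfl)
    | cons b l' => exact Or.inr (Or.inr trivial)
  | cons a l ih =>
    cases l' with
    | nil => exact Or.inl trivial
    | cons b l' =>
      rcases lt_trichotomy a b with h | rfl | h
      · exact Or.inl (Or.inl h)
      · rcases ih l' with h | rfl | h
        · exact Or.inl (Or.inr ⟨rfl, h⟩)
        · exact Or.inr (Or.inl rfl)
        · exact Or.inr (Or.inr (Or.inr ⟨rfl, h⟩))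
      · exact Or.inr (Or.inr (Or.inl h))

theorem kb_ext (w : List ℕ) (c : ℕ) : KB (w ++ [c]) w := by
  induction w with
  | nil => exact trivial
  | cons b w ih => exact Or.inr ⟨rfl, ih⟩

theorem kb_far {l w : List ℕ} (h : KB l w) : ∃ N : ℕ, ∀ c, N ≤ c → KB l (w ++ [c]) := by
  induction w generalizing l with
  | nil =>
    cases l with
    | nil => exact (h : False).elim
    | cons a l => exact ⟨a + 1, fun c hc => Or.inl hc⟩
  | cons b w ih =>
    cases l with
    | nil => exact (h : False).elim
    | cons a l =>
      rcases h with h | ⟨rfl, h⟩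
      · exact ⟨0, fun c _ => Or.inl h⟩
      · obtain ⟨N, hN⟩ := ih h
        exact ⟨N, fun c hc => Or.inr ⟨rfl, hN c hc⟩⟩

end H55.CK
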