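import Pool.Agent.H55.CK.Basic
import Pool.Agent.H55.CK.KBWf
import Pool.Agent.H55.CK.KBComp

/-!
# Module KBTr: the rank of a computable tree without infinite branch is smaller than `ω₁^CK`

Let `R = KBN V`, a computable well-order (`kbn_wo`, `kbn_comp`). CLAIM (induction on `α`): if `V w` and `HasTr V α w` then `α ≤ typein R (cod w)`. For `γ < α` there
is `a` with `V (w ++ [a])`, `HasTr V γ (w ++ [a])` (unfold `HasTr`), so `γ ≤ typein R (cod (w ++ [a]))` and this is `< typein R (cod w)`
(`Ordinal.typein_lt_typein`, `kb_ext`); hence `γ < typein R (cod w)` for all `γ < α` (`le_of_forall_lt`). For `w = []`: `α ≤ typein R (cod []) < type R < omega1CK`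
(`Ordinal.typein_lt_type`, `type_lt`). Note: `Ordinal.typein` is a principal segment embedding; its application to `cod w` may need `@Ordinal.typein ℕ R inst`.
-/

set_option autoImplicit false

namespace H55.CK

open Ordinal

theorem hasTr_lt {V : List ℕ → Prop} (hV : IsTree V) (hN : NoPath V) (hc : ComputablePred V)
    {α : Ordinal.{0}} (h : HasTr V α []) : α < omega1CK := by
  have hwo : IsWellOrder ℕ (KBN V) := kbn_wo hV hN
  have hcomp : ComputablePred fun p : ℕ × ℕ => KBN V p.1 p.2 := kbn_comp hc
  have key : ∀ β : Ordinal.{0}, ∀ w, V w → HasTr V β w →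
      β ≤ @Ordinal.typein ℕ (KBN V) hwo (cod w) := by
    intro β
    induction β using WellFoundedLT.induction with
    | ind β ih =>
      intro w hw hβ
      rw [hasTr_iff] at hβ
      refine le_of_forall_lt fun γ hγ => ?_
      obtain ⟨a, ha, hγa⟩ := hβ γ hγ
      refine (ih γ hγ (w ++ [a]) ha hγa).trans_lt ?_
      rw [Ordinal.typein_lt_typein]
      left
      refine ⟨by rw [lst_cod]; exact ha, by rw [lst_cod]; exact hw, ?_⟩
      rw [lst_cod, lst_cod]
      exact kb_ext w a
  have h1 := key α [] hV.nil h
  exact (h1.trans_lt (@Ordinal.typein_lt_type ℕ (KBN V) hwo (cod []))).trans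
    (type_lt ⟨hwo, hcomp⟩)

end H55.CK
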