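import Pool.Agent.H55.CK.Comp
import Pool.Agent.H55.CK.KBDef

/-!
# Module SchT: the splitting schemes of a primitive recursive tree form a primitive recursive tree

* `labs_surj`: `a = Nat.pair (cod (y.map f)) (cod (z.map f))`, `f b = if b then 1 else 0` (`Nat.bodd 1 = true`, `Nat.bodd 0 = false`, `lst_cod`, `Nat.unpair_pair`).
* `node_append`: if `m ≤ 2 * w.length + 1` then `m / 2 - 1 < w.length` or `m < 2`; `List.getD_append`.
* `sch_tree`: for `i < w.length` the conditions for `w ++ [a]` and for `w` are the same, by `node_append` (`i + 1 ≤ w.length`) and `List.getD_append`.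
* `sch_prim`: `lab1`, `lab2` are primitive recursive (`prim_lst`, `Primrec.list_map`, `Primrec.nat_bodd`, `Primrec.unpair`), `(w, m) ↦ node w m` is
  (`Primrec.ite`, `Primrec.nat_div2` or `Primrec.nat_div`, `Primrec.nat_mod`, `Primrec.list_getD`), `y <+: z ↔ y = z.take y.length` (`List.prefix_iff_eq_take`) is
  (`Primrec.list_take`, `Primrec.eq`), bounded quantifier `PrimrecRel.forall_lt` (relation `R i w`).
-/

set_option autoImplicit false

namespace H55.CK

private def bn (b : Bool) : ℕ := if b then 1 else 0

private theorem bodd_bn (b : Bool) : Nat.bodd (bn b) = b := by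
  cases b <;> rfl

private theorem map_bn (y : List Bool) : (y.map bn).map Nat.bodd = y := by
  rw [List.map_map]
  have : (Nat.bodd ∘ bn) = id := funext bodd_bn
  rw [this, List.map_id]

theorem labs_surj (y z : List Bool) : ∃ a : ℕ, lab1 a = y ∧ lab2 a = z := by
  refine ⟨Nat.pair (cod (y.map bn)) (cod (z.map bn)), ?_, ?_⟩
  · unfold lab1
    rw [Nat.unpair_pair]
    simp only [lst_cod]
    exact map_bn y
  · unfold lab2
    rw [Nat.unpair_pair]
    simp only [lst_cod]
    exact map_bn z

private theorem getD_old {w : List ℕ} {i : ℕ} (a : ℕ) (h : i < w.length) :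
    (w ++ [a]).getD i 0 = w.getD i 0 := by
  rw [List.getD_append _ _ _ _ h]

private theorem getD_last (w : List ℕ) (a : ℕ) : (w ++ [a]).getD w.length 0 = a := by
  rw [List.getD_append_right _ _ _ _ le_rfl]
  simp

theorem node_append {w : List ℕ} {m : ℕ} (a : ℕ) (h : m ≤ 2 * w.length + 1) :
    node (w ++ [a]) m = node w m := by
  unfold node
  by_cases hm : m < 2
  · rw [if_pos hm, if_pos hm]
  · rw [if_neg hm, if_neg hm, getD_old a (by omega)]

/-- the two new nodes -/
theorem node_new (w : List ℕ) (a : ℕ) : node (w ++ [a]) (2 * w.length + 2) = lab1 a ∧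
    node (w ++ [a]) (2 * w.length + 3) = lab2 a := by
  constructor
  · unfold node
    rw [if_neg (by omega), if_pos (by omega)]
    have : (2 * w.length + 2) / 2 - 1 = w.length := by omega
    rw [this, getD_last]
  · unfold node
    rw [if_neg (by omega), if_neg (by omega)]
    have : (2 * w.length + 3) / 2 - 1 = w.length := by omega
    rw [this, getD_last]

theorem sch_tree (T : List Bool → Prop) : IsTree (Sch T) := by
  constructor
  · intro i hi
    simp at hi
  · intro w a h i hi
    have h1 := h i (by rw [List.length_append]; omega)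
    rw [node_append a (by omega), getD_old a hi] at h1
    exact h1

/-- the condition for one more entry -/
theorem sch_snoc {T : List Bool → Prop} {w : List ℕ} (hw : Sch T w) {a : ℕ}
    (h1 : node w (w.length + 1) <+: lab1 a) (h2 : node w (w.length + 1) <+: lab2 a)
    (h3 : ¬ lab1 a <+: lab2 a) (h4 : ¬ lab2 a <+: lab1 a) (h5 : T (lab1 a)) (h6 : T (lab2 a)) :
    Sch T (w ++ [a]) := by
  intro i hi
  rw [List.length_append, List.length_singleton] at hi
  rcases Nat.lt_succ_iff_lt_or_eq.mp hi with h | h
  · rw [node_append a (by omega), getD_old a h]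
    exact hw i h
  · subst h
    rw [node_append a (by omega), getD_last]
    exact ⟨⟨h1, h2⟩, ⟨h3, h4⟩, h5, h6⟩

private theorem prim_lab1 : Primrec lab1 :=
  Primrec.list_map (prim_lst.comp (Primrec.fst.comp Primrec.unpair))
    (Primrec.nat_bodd.comp Primrec.snd).to₂

private theorem prim_lab2 : Primrec lab2 :=
  Primrec.list_map (prim_lst.comp (Primrec.snd.comp Primrec.unpair))
    (Primrec.nat_bodd.comp Primrec.snd).to₂

private theorem prim_node : Primrec₂ node := by
  have h2 : Primrec fun q : List ℕ × ℕ => q.2 := Primrec.snd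
  have hg : Primrec fun q : List ℕ × ℕ => q.1.getD (q.2 / 2 - 1) 0 :=
    (Primrec.list_getD 0).comp Primrec.fst
      (Primrec.nat_sub.comp (Primrec.nat_div.comp h2 (Primrec.const 2)) (Primrec.const 1))
  refine Primrec.ite (Primrec.nat_lt.comp h2 (Primrec.const 2)) (Primrec.const []) ?_
  exact Primrec.ite (Primrec.eq.comp (Primrec.nat_mod.comp h2 (Primrec.const 2)) (Primrec.const 0))
    (prim_lab1.comp hg) (prim_lab2.comp hg)

private theorem prim_pre : PrimrecRel fun y z : List Bool => y <+: z := by
  have h : PrimrecRel fun y z : List Bool => y = z.take y.length :=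
    Primrec.eq.comp Primrec.fst (Primrec.list_take.comp (Primrec.list_length.comp Primrec.fst)
      Primrec.snd)
  exact h.of_eq fun y z => List.prefix_iff_eq_take.symm

theorem sch_prim {T : List Bool → Prop} (hT : PrimrecPred T) : PrimrecPred (Sch T) := by
  have hn : Primrec fun q : ℕ × List ℕ => node q.2 (q.1 + 1) :=
    prim_node.comp Primrec.snd (Primrec.succ.comp Primrec.fst)
  have hg : Primrec fun q : ℕ × List ℕ => q.2.getD q.1 0 :=
    (Primrec.list_getD 0).comp Primrec.snd Primrec.fst
  have hl1 : Primrec fun q : ℕ × List ℕ => lab1 (q.2.getD q.1 0) := prim_lab1.comp hg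
  have hl2 : Primrec fun q : ℕ × List ℕ => lab2 (q.2.getD q.1 0) := prim_lab2.comp hg
  have hR : PrimrecRel fun (i : ℕ) (w : List ℕ) =>
      (node w (i + 1) <+: lab1 (w.getD i 0) ∧ node w (i + 1) <+: lab2 (w.getD i 0)) ∧
      (¬ lab1 (w.getD i 0) <+: lab2 (w.getD i 0) ∧ ¬ lab2 (w.getD i 0) <+: lab1 (w.getD i 0)) ∧
      T (lab1 (w.getD i 0)) ∧ T (lab2 (w.getD i 0)) := by
    exact ((prim_pre.comp hn hl1).and (prim_pre.comp hn hl2)).and
      (((prim_pre.comp hl1 hl2).not.and (prim_pre.comp hl2 hl1).not).and
        ((hT.comp hl1).and (hT.comp hl2)))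
  have hid : Primrec fun w : List ℕ => w := Primrec.id
  have hF := hR.forall_mem_list.comp (Primrec.list_range.comp Primrec.list_length) hid
  refine hF.of_eq fun w => ?_
  simp only [List.mem_range]
  rfl

end H55.CK
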