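import Pool.Agent.H76.CBSpace
import Pool.Agent.H55.CK.SchT

/-!
# Module RankB: points of high Cantor-Bendixson rank give splitting schemes of high rank

`rank_tr`. Say that `w` is good at `α` if `Sch T w` and for every `m` with `w.length + 1 ≤ m ≤ 2 * w.length + 1` there is `S ∈ K`, `S ∈ D^α` (the derivative of order `α` of
the space), such that `node w m <+: (List.range n).map (bits S)` for some `n` (equivalently `node w m = (List.range (node w m).length).map (bits S)`).
CLAIM (induction on `α`): good at `α` implies `HasTr (Sch T) α w`. Let `γ < α`, `i = w.length`, `m = i + 1` (a leaf), `S` for this `m`. `S ∈ D^(γ+1)` (antitone: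
`iteratedDerivedSet_antitone`, `Order.add_one_le_of_lt`), so by `exists_of_mem_succ` and `h4` (with `n₀` = length of the label) and `hK` (open) there is `S' ≠ S`, `S' ∈ D^γ`, `S' ∈ K`, with
`bits S' i = bits S i` for `i < n₀`. `bits S' ≠ bits S` (`h3`), so for some `n > n₀` the lists `y = (List.range n).map (bits S)`, `z = (List.range n).map (bits S')` differ; equal length, so
they are incomparable; both extend the label of `m`; `T y`, `T z` by `h1`. Take `a` with `lab1 a = y`, `lab2 a = z` (`labs_surj`): `Sch T (w ++ [a])` by `sch_snoc`. It is good at `γ`: the leaves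
of `w ++ [a]` are the leaves of `w` other than `i + 1` (`node_append`; `D^α ⊆ D^γ`) and the two new nodes (`node_new`), with `S`, `S'`. Start: `w = []`, `m = 1`, label `[]`.
-/

set_option autoImplicit false

namespace H55.CK

open CantorBendixson H76.CB

variable {Y : Type} [MetricSpace Y] {K : Set Y} {bits : Y → ℕ → Bool}

/-- initial segments of `bits S` -/
private def seg (bits : Y → ℕ → Bool) (S : Y) (n : ℕ) : List Bool := (List.range n).map (bits S)

omit [MetricSpace Y] in
private theorem seg_length (S : Y) (n : ℕ) : (seg bits S n).length = n := by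
  unfold seg
  rw [List.length_map, List.length_range]

omit [MetricSpace Y] in
private theorem seg_prefix (S : Y) {m n : ℕ} (h : m ≤ n) : seg bits S m <+: seg bits S n := by
  unfold seg
  apply List.IsPrefix.map
  rw [List.prefix_iff_eq_take, List.length_range, List.take_range, min_eq_left h]

omit [MetricSpace Y] in
private theorem seg_congr {S S' : Y} {n : ℕ} (h : ∀ i < n, bits S' i = bits S i) :
    seg bits S' n = seg bits S n := by
  unfold seg
  apply List.map_congr_left
  intro i hi
  exact h i (List.mem_range.1 hi)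

private def Good (K : Set Y) (bits : Y → ℕ → Bool) (T : List Bool → Prop) (α : Ordinal.{0})
    (w : List ℕ) : Prop :=
  Sch T w ∧ ∀ m, w.length + 1 ≤ m → m ≤ 2 * w.length + 1 →
    ∃ S ∈ K, S ∈ iteratedDerivedSet (Set.univ : Set Y) α ∧ ∃ n, node w m = seg bits S n

private theorem good_tr (hK : IsOpen K) {T : List Bool → Prop}
    (h1 : ∀ S ∈ K, ∀ n, T ((List.range n).map (bits S))) (h3 : Set.InjOn bits K)
    (h4 : ∀ S ∈ K, ∀ n : ℕ, ∃ ε > 0, ∀ S', dist S' S < ε → ∀ i < n, bits S' i = bits S i)
    (α : Ordinal.{0}) : ∀ w, Good K bits T α w → HasTr (Sch T) α w := by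
  induction α using WellFoundedLT.induction with
  | ind α ih =>
    intro w hw
    rw [hasTr_iff]
    intro γ hγ
    obtain ⟨hsch, hleaf⟩ := hw
    obtain ⟨S, hSK, hSα, n₀, hn₀⟩ := hleaf (w.length + 1) le_rfl (by omega)
    have hSγ : S ∈ iteratedDerivedSet (Set.univ : Set Y) (γ + 1) :=
      iteratedDerivedSet_antitone _ (Order.add_one_le_of_lt hγ) hSα
    obtain ⟨ε1, hε1, hag⟩ := h4 S hSK n₀
    obtain ⟨ε2, hε2, hball⟩ := Metric.isOpen_iff.1 hK S hSK
    obtain ⟨S', hS'γ, hne, hd⟩ := exists_of_mem_succ hSγ (lt_min hε1 hε2)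
    have hS'K : S' ∈ K := hball (Metric.mem_ball.2 (hd.trans_le (min_le_right _ _)))
    have hag' := hag S' (hd.trans_le (min_le_left _ _))
    have hbne : bits S' ≠ bits S := fun h => hne (h3 hS'K hSK h)
    obtain ⟨j, hj⟩ := Function.ne_iff.1 hbne
    obtain ⟨n, hnj, hn0⟩ : ∃ n, j < n ∧ n₀ ≤ n :=
      ⟨max (j + 1) n₀, lt_of_lt_of_le (Nat.lt_succ_self j) (le_max_left _ _), le_max_right _ _⟩
    have hyz : seg bits S n ≠ seg bits S' n := by
      intro h
      apply hj
      unfold seg at h
      have h5 := List.map_inj_left.1 h j (List.mem_range.2 hnj)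
      exact h5.symm
    obtain ⟨a, ha1, ha2⟩ := labs_surj (seg bits S n) (seg bits S' n)
    have hy : node w (w.length + 1) <+: lab1 a := by
      rw [hn₀, ha1]
      exact seg_prefix S hn0
    have hz : node w (w.length + 1) <+: lab2 a := by
      rw [hn₀, ha2, ← seg_congr hag']
      exact seg_prefix S' hn0
    have hnyz : ¬ lab1 a <+: lab2 a := by
      rw [ha1, ha2]
      intro h
      exact hyz (h.eq_of_length (by rw [seg_length, seg_length]))
    have hnzy : ¬ lab2 a <+: lab1 a := by
      rw [ha1, ha2]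
      intro h
      exact hyz (h.eq_of_length (by rw [seg_length, seg_length])).symm
    have hsch' : Sch T (w ++ [a]) := by
      refine sch_snoc hsch hy hz hnyz hnzy ?_ ?_
      · rw [ha1]
        exact h1 S hSK n
      · rw [ha2]
        exact h1 S' hS'K n
    refine ⟨a, hsch', ih γ hγ _ ⟨hsch', ?_⟩⟩
    intro m hm1 hm2
    rw [List.length_append, List.length_singleton] at hm1 hm2
    rcases Nat.lt_or_ge m (2 * w.length + 2) with h5 | h5
    · obtain ⟨S2, hS2K, hS2, n2, hn2⟩ := hleaf m (by omega) (by omega)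
      refine ⟨S2, hS2K, iteratedDerivedSet_antitone _ hγ.le hS2, n2, ?_⟩
      rw [node_append a (by omega), hn2]
    · have h6 : m = 2 * w.length + 2 ∨ m = 2 * w.length + 3 := by omega
      rcases h6 with rfl | rfl
      · refine ⟨S, hSK, iteratedDerivedSet_antitone _ hγ.le hSα, n, ?_⟩
        rw [(node_new w a).1, ha1]
      · refine ⟨S', hS'K, hS'γ, n, ?_⟩
        rw [(node_new w a).2, ha2]

theorem rank_tr (hK : IsOpen K) {T : List Bool → Prop}
    (h1 : ∀ S ∈ K, ∀ n, T ((List.range n).map (bits S))) (h3 : Set.InjOn bits K)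
    (h4 : ∀ S ∈ K, ∀ n : ℕ, ∃ ε > 0, ∀ S', dist S' S < ε → ∀ i < n, bits S' i = bits S i)
    {α : Ordinal.{0}} {S : Y} (hS : S ∈ K) (hα : S ∈ iteratedDerivedSet (Set.univ : Set Y) α) :
    HasTr (Sch T) α [] := by
  refine good_tr hK h1 h3 h4 α [] ⟨fun i hi => absurd hi (by simp), fun m hm1 hm2 => ?_⟩
  rw [List.length_nil] at hm1 hm2
  have hm : m = 1 := by omega
  subst hm
  refine ⟨S, hS, hα, 0, ?_⟩
  unfold node seg
  simp

end H55.CK
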