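import Pool.Agent.H76.CBSpace

/-!
# Module Scat: scattered sets are countable

For `S ∈ K` let `β` be the least ordinal with `S ∉ D^β` (exists by `h`, `β ≤ α`). By `mem_of_forall_lt` (contrapositive) there is `γ < β` with
`S ∉ D^(γ+1)`, and `S ∈ D^γ`. By `mem_succ` (contrapositive) there is `ε > 0` such that every `S' ∈ D^γ` with `dist S' S < ε` is `S`; let `n` be given by `h5`. Map `S` to
`(List.range n).map (bits S)`, a member of the countable type `List Bool`. It is injective on `K`: if `S`, `S'` have the same image (so the same `n`) and `γ ≤ γ'` (say) then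
`S' ∈ D^γ'⊆ D^γ` and `bits S' i = bits S i` for `i < n`, so `dist S' S < ε`, `S' = S`. (`Set.countable_of_injective_of_countable_image` or `Set.MapsTo`/`InjOn`.)
-/

set_option autoImplicit false

namespace H55.CK

open CantorBendixson H76.CB

variable {Y : Type} [MetricSpace Y] {K : Set Y} {bits : Y → ℕ → Bool}

/-- every point of a scattered set is isolated in a derivative and determined by finitely many
bits -/
private lemma exists_iso
    (h5 : ∀ S ∈ K, ∀ ε > 0, ∃ n : ℕ, ∀ S' ∈ K, (∀ i < n, bits S' i = bits S i) → dist S' S < ε)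
    {α : Ordinal.{0}} (h : ∀ S ∈ K, S ∉ iteratedDerivedSet (Set.univ : Set Y) α)
    (S : Y) (hS : S ∈ K) :
    ∃ γ : Ordinal.{0}, ∃ n : ℕ, S ∈ iteratedDerivedSet (Set.univ : Set Y) γ ∧
      ∀ S' ∈ K, S' ∈ iteratedDerivedSet (Set.univ : Set Y) γ →
        (∀ i < n, bits S' i = bits S i) → S' = S := by
  have hne : {β : Ordinal.{0} | S ∉ iteratedDerivedSet (Set.univ : Set Y) β}.Nonempty :=
    ⟨α, h S hS⟩
  have hmem := csInf_mem hne
  set β := sInf {β : Ordinal.{0} | S ∉ iteratedDerivedSet (Set.univ : Set Y) β} with hβ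
  have h1 : ∃ γ < β, S ∉ iteratedDerivedSet (Set.univ : Set Y) (γ + 1) := by
    by_contra hcon
    push Not at hcon
    exact hmem (mem_of_forall_lt β hcon)
  obtain ⟨γ, hγ, hγ1⟩ := h1
  have hγ0 : S ∈ iteratedDerivedSet (Set.univ : Set Y) γ := by
    by_contra hcon
    exact absurd (csInf_le' (s := {β : Ordinal.{0} |
      S ∉ iteratedDerivedSet (Set.univ : Set Y) β}) hcon) (not_le.2 hγ)
  have h2 : ∃ ε : ℝ, 0 < ε ∧ ∀ y ∈ iteratedDerivedSet (Set.univ : Set Y) γ,
      dist y S < ε → y = S := by
    by_contra hcon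
    push Not at hcon
    apply hγ1
    refine mem_succ hγ0 fun ε hε => ?_
    obtain ⟨y, hy, hd, hne⟩ := hcon ε hε
    exact ⟨y, hy, hne, hd⟩
  obtain ⟨ε, hε, h3⟩ := h2
  obtain ⟨n, hn⟩ := h5 S hS ε hε
  exact ⟨γ, n, hγ0, fun S' hS' hD hb => h3 S' hD (hn S' hS' hb)⟩

theorem scattered_countable
    (h5 : ∀ S ∈ K, ∀ ε > 0, ∃ n : ℕ, ∀ S' ∈ K, (∀ i < n, bits S' i = bits S i) → dist S' S < ε)
    {α : Ordinal.{0}} (h : ∀ S ∈ K, S ∉ iteratedDerivedSet (Set.univ : Set Y) α) : K.Countable := by
  classical
  have key := fun S : K => exists_iso h5 h S.1 S.2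
  choose γ n hmem huniq using key
  have hinj : Function.Injective (fun S : K => (List.range (n S)).map (bits S.1)) := by
    intro S T hST
    simp only at hST
    have hlen : n S = n T := by
      have := congrArg List.length hST
      simpa using this
    have hbits : ∀ i < n S, bits S.1 i = bits T.1 i := by
      intro i hi
      rw [← hlen] at hST
      have := List.map_inj_left.1 hST i (List.mem_range.2 hi)
      exact this
    rcases le_total (γ S) (γ T) with hle | hle
    · have h4 : T.1 ∈ iteratedDerivedSet (Set.univ : Set Y) (γ S) :=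
        iteratedDerivedSet_antitone _ hle (hmem T)
      exact Subtype.ext (huniq S T.1 T.2 h4 fun i hi => (hbits i hi).symm).symm
    · have h4 : S.1 ∈ iteratedDerivedSet (Set.univ : Set Y) (γ T) :=
        iteratedDerivedSet_antitone _ hle (hmem S)
      exact Subtype.ext (huniq T S.1 S.2 h4 fun i hi => hbits i (by omega))
  have : Countable K := hinj.countable
  exact Set.countable_coe_iff.1 this

end H55.CK
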