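import Pool.Agent.H55.CK.SchT

/-!
# Module SchB: an infinite splitting scheme gives a Cantor set of branches of `T`

Let `f : ℕ → ℕ` be an infinite branch of `Sch T`. Put `L m = node ((List.range n).map f) m` for any `n` with `m / 2 ≤ n` (the value does not depend on `n`: it is `[]` for
`m < 2`, `lab1 (f (m/2 - 1))` or `lab2 (f (m/2-1))` for `m ≥ 2`; take this as the definition of `L`). From `Sch T ((List.range (i+1)).map f)` at `i`, with `k = i + 1 ≥ 1`:
`L k <+: L (2k)`, `L k <+: L (2k+1)`, `L (2k)`, `L (2k+1)` are incomparable, `T (L (2k))`, `T (L (2k+1))`. So both are strictly longer than `L k` (if `L (2k) = L k` then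
`L (2k) <+: L (2k+1)`).
For `s : ℕ → Bool` let `h 0 = 1`, `h (n+1) = 2 * h n + (if s n then 1 else 0)` (`Nat.rec`). `L (h n) <+: L (h (n+1))`, length at least `n`, `T (L (h n))` for `n ≥ 1`.
`F s i = (L (h (i+1))).getD i false`. For all `n`: `(List.range n).map (F s) <+: L (h n)` (the lists `L (h n)` are prefixes of each other, so the entry `i` is the same
in all those which have it), so `T` of it by `hpre` (`L (h n) <+: L (h (n+1))`, `T (L (h (n+1)))`).
Injective: if `s ≠ s'` let `n` be the first place where they differ; the nodes `h n` agree, so `L (h (n+1))`, `L (h' (n+1))` are incomparable, but if `F s = F s'` then both are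
prefixes of `(List.range N).map (F s)` for a large `N` (`L (h n) = (List.range (L (h n)).length).map (F s)`), and two prefixes of one list are comparable
(`List.prefix_or_prefix_of_prefix`).
-/

set_option autoImplicit false

namespace H55.CK

private def Lb (f : ℕ → ℕ) (m : ℕ) : List Bool :=
  if m < 2 then [] else if m % 2 = 0 then lab1 (f (m / 2 - 1)) else lab2 (f (m / 2 - 1))

private theorem node_Lb (f : ℕ → ℕ) {m n : ℕ} (h : m / 2 ≤ n) :
    node ((List.range n).map f) m = Lb f m := by
  unfold node Lb
  by_cases h2 : m < 2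
  · rw [if_pos h2, if_pos h2]
  · have h3 : ((List.range n).map f).getD (m / 2 - 1) 0 = f (m / 2 - 1) := by
      rw [List.getD_eq_getElem _ _ (by rw [List.length_map, List.length_range]; omega)]
      simp
    rw [if_neg h2, if_neg h2, h3]

private theorem Lb_step {T : List Bool → Prop} {f : ℕ → ℕ} (hf : ∀ n, Sch T ((List.range n).map f))
    {k : ℕ} (hk : 1 ≤ k) :
    (Lb f k <+: Lb f (2 * k) ∧ Lb f k <+: Lb f (2 * k + 1)) ∧
    (¬ Lb f (2 * k) <+: Lb f (2 * k + 1) ∧ ¬ Lb f (2 * k + 1) <+: Lb f (2 * k)) ∧
    T (Lb f (2 * k)) ∧ T (Lb f (2 * k + 1)) := by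
  obtain ⟨i, rfl⟩ : ∃ i, k = i + 1 := ⟨k - 1, by omega⟩
  have h := hf (i + 1) i (by simp)
  have h1 : ((List.range (i + 1)).map f).getD i 0 = f i := by
    rw [List.getD_eq_getElem _ _ (by simp)]
    simp
  have h2 : Lb f (2 * (i + 1)) = lab1 (f i) := by
    unfold Lb
    rw [if_neg (by omega), if_pos (by omega)]
    congr 2
    omega
  have h3 : Lb f (2 * (i + 1) + 1) = lab2 (f i) := by
    unfold Lb
    rw [if_neg (by omega), if_neg (by omega)]
    congr 2
    omega
  rw [h1, node_Lb f (by omega)] at h
  rw [h2, h3]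
  exact h

private def hh (s : ℕ → Bool) : ℕ → ℕ
  | 0 => 1
  | n + 1 => 2 * hh s n + (if s n = true then 1 else 0)

private theorem hh_pos (s : ℕ → Bool) (n : ℕ) : 1 ≤ hh s n := by
  induction n with
  | zero => exact le_rfl
  | succ n ih =>
    unfold hh
    omega

private theorem hh_congr {s s' : ℕ → Bool} {n : ℕ} (h : ∀ m < n, s m = s' m) : hh s n = hh s' n := by
  induction n with
  | zero => rfl
  | succ n ih =>
    unfold hh
    rw [ih fun m hm => h m (by omega), h n (by omega)]

private theorem range_pre {α : Type} (g : ℕ → α) {a b : ℕ} (h : a ≤ b) :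
    (List.range a).map g <+: (List.range b).map g := by
  obtain ⟨c, rfl⟩ := Nat.exists_eq_add_of_le h
  rw [List.range_add, List.map_append]
  exact List.prefix_append _ _

section

variable {T : List Bool → Prop} {f : ℕ → ℕ}

private theorem P_step (hf : ∀ n, Sch T ((List.range n).map f)) (s : ℕ → Bool) (n : ℕ) :
    Lb f (hh s n) <+: Lb f (hh s (n + 1)) ∧ (Lb f (hh s n)).length < (Lb f (hh s (n + 1))).length ∧
      T (Lb f (hh s (n + 1))) := by
  obtain ⟨⟨hA, hB⟩, ⟨hC, hD⟩, hE, hF⟩ := Lb_step hf (hh_pos s n)
  have e : hh s (n + 1) = 2 * hh s n + (if s n = true then 1 else 0) := rfl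
  rw [e]
  by_cases hs : s n = true
  · rw [if_pos hs]
    refine ⟨hB, ?_, hF⟩
    by_contra hlt
    have h1 := hB.eq_of_length_le (not_lt.1 hlt)
    rw [h1] at hA
    exact hD hA
  · rw [if_neg hs, add_zero]
    refine ⟨hA, ?_, hE⟩
    by_contra hlt
    have h1 := hA.eq_of_length_le (not_lt.1 hlt)
    rw [h1] at hB
    exact hC hB

private theorem P_mono (hf : ∀ n, Sch T ((List.range n).map f)) (s : ℕ → Bool) {m n : ℕ}
    (h : m ≤ n) : Lb f (hh s m) <+: Lb f (hh s n) := by
  induction n, h using Nat.le_induction with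
  | base => exact List.prefix_rfl
  | succ n _ ih => exact ih.trans (P_step hf s n).1

private theorem P_len (hf : ∀ n, Sch T ((List.range n).map f)) (s : ℕ → Bool) (n : ℕ) :
    n ≤ (Lb f (hh s n)).length := by
  induction n with
  | zero => exact Nat.zero_le _
  | succ n ih =>
    have := (P_step hf s n).2.1
    omega

private def FF (f : ℕ → ℕ) (s : ℕ → Bool) (i : ℕ) : Bool := (Lb f (hh s (i + 1))).getD i false

private theorem P_eq (hf : ∀ n, Sch T ((List.range n).map f)) (s : ℕ → Bool) (n : ℕ) :
    (List.range (Lb f (hh s n)).length).map (FF f s) = Lb f (hh s n) := by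
  refine List.ext_getElem (by simp) fun i h1 h2 => ?_
  have h3 : i < (Lb f (hh s (i + 1))).length := by
    have := P_len hf s (i + 1)
    omega
  rw [List.getElem_map, List.getElem_range]
  unfold FF
  rw [List.getD_eq_getElem _ _ h3]
  rcases le_total (i + 1) n with h | h
  · exact (P_mono hf s h).getElem h3
  · exact ((P_mono hf s h).getElem h2).symm

end

theorem sch_branch {T : List Bool → Prop} (hpre : ∀ l l' : List Bool, l <+: l' → T l' → T l)
    (h : ¬ NoPath (Sch T)) : ∃ F : (ℕ → Bool) → ℕ → Bool, Function.Injective F ∧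
      ∀ s n, T ((List.range n).map (F s)) := by
  obtain ⟨f, hf⟩ := not_not.1 h
  refine ⟨FF f, ?_, ?_⟩
  · intro s s' hss
    by_contra hne
    have hex : ∃ n, s n ≠ s' n := by
      by_contra hc
      push Not at hc
      exact hne (funext hc)
    classical
    have h1 := Nat.find_spec hex
    have h2 : hh s (Nat.find hex) = hh s' (Nat.find hex) :=
      hh_congr fun m hm => not_not.1 (Nat.find_min hex hm)
    set n := Nat.find hex with hn
    have h3 : Lb f (hh s (n + 1)) <+: Lb f (hh s' (n + 1)) ∨
        Lb f (hh s' (n + 1)) <+: Lb f (hh s (n + 1)) := by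
      have e1 := P_eq hf s (n + 1)
      have e2 := P_eq hf s' (n + 1)
      rw [← hss] at e2
      rw [← e1, ← e2]
      rcases le_total (Lb f (hh s (n + 1))).length (Lb f (hh s' (n + 1))).length with h | h
      · left
        rw [e1]
        have := range_pre (FF f s) h
        rwa [e1] at this
      · right
        rw [e2]
        have := range_pre (FF f s) h
        rwa [e2] at this
    obtain ⟨-, ⟨hC, hD⟩, -⟩ := Lb_step hf (hh_pos s n)
    have e : hh s (n + 1) = 2 * hh s n + (if s n = true then 1 else 0) := rfl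
    have e' : hh s' (n + 1) = 2 * hh s n + (if s' n = true then 1 else 0) := by
      rw [h2]
      rfl
    rw [e, e'] at h3
    rcases hs : s n with _ | _ <;> rcases hs' : s' n with _ | _
    · exact h1 (hs.trans hs'.symm)
    · simp only [hs, hs', Bool.false_eq_true, if_false, if_true, add_zero] at h3
      exact h3.elim hC hD
    · simp only [hs, hs', Bool.false_eq_true, if_false, if_true, add_zero] at h3
      exact h3.elim hD hC
    · exact h1 (hs.trans hs'.symm)
  · intro s n
    have h1 := P_eq hf s (n + 1)
    have h2 := P_len hf s (n + 1)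
    have h3 := range_pre (FF f s) (show n ≤ (Lb f (hh s (n + 1))).length by omega)
    rw [h1] at h3
    exact hpre _ _ h3 (P_step hf s n).2.2

end H55.CK
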