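import Pool.Agent.H55.CK.KBTr
import Pool.Agent.H55.CK.SchB
import Pool.Agent.H55.CK.RankB
import Pool.Agent.H55.CK.Scat

/-!
# Module Krei: an isolated point of the derivative of order `ω₁^CK` does not exist in an effectively closed set (Kreisel)

No point of `K` is in `D^(Ω+1)`, `Ω = omega1CK`: a point `S' ∈ K ∩ D^(Ω+1)` is in `D^Ω` so it is `S`, and near `S` (in `K`, open) there is another point of `D^Ω` (`exists_of_mem_succ`),
against `hu`. So `K` is countable (`scattered_countable`). If `Sch T` had an infinite branch, `sch_branch` and `h2` would give an injection `(ℕ → Bool) → K` (choose `S` with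
`bits S = F s`), impossible (`K` countable, `ℕ → Bool` uncountable: see the end of `lt_cbRank` in `Pool/Agent/H76/CBSpace.lean`). So `NoPath (Sch T)`, and `hasTr_lt` with `sch_tree`,
`cp_of_prim (sch_prim hT)`, `rank_tr` (`α = Ω`) gives `Ω < Ω`, a contradiction.
-/

set_option autoImplicit false

namespace H55.CK

open CantorBendixson H76.CB

theorem kreisel {Y : Type} [MetricSpace Y] {K : Set Y} (hK : IsOpen K) {bits : Y → ℕ → Bool}
    {T : List Bool → Prop} (hT : PrimrecPred T) (hpre : ∀ l l' : List Bool, l <+: l' → T l' → T l)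
    (h1 : ∀ S ∈ K, ∀ n, T ((List.range n).map (bits S)))
    (h2 : ∀ β : ℕ → Bool, (∀ n, T ((List.range n).map β)) → ∃ S ∈ K, bits S = β)
    (h3 : Set.InjOn bits K)
    (h4 : ∀ S ∈ K, ∀ n : ℕ, ∃ ε > 0, ∀ S', dist S' S < ε → ∀ i < n, bits S' i = bits S i)
    (h5 : ∀ S ∈ K, ∀ ε > 0, ∃ n : ℕ, ∀ S' ∈ K, (∀ i < n, bits S' i = bits S i) → dist S' S < ε)
    {S : Y} (hS : S ∈ K) (hΩ : S ∈ iteratedDerivedSet (Set.univ : Set Y) omega1CK)
    (hu : ∀ S' ∈ K, S' ∈ iteratedDerivedSet (Set.univ : Set Y) omega1CK → S' = S) : False := by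
  classical
  have hno : ∀ S' ∈ K, S' ∉ iteratedDerivedSet (Set.univ : Set Y) (omega1CK + 1) := by
    intro S' hS' hm
    have hm0 : S' ∈ iteratedDerivedSet (Set.univ : Set Y) omega1CK :=
      iteratedDerivedSet_antitone _ le_self_add hm
    have he := hu S' hS' hm0
    obtain ⟨ε, hε, hb⟩ := Metric.isOpen_iff.1 hK S' hS'
    obtain ⟨y, hy, hne, hd⟩ := exists_of_mem_succ hm hε
    exact hne ((hu y (hb hd) hy).trans he.symm)
  have hcount : K.Countable := scattered_countable h5 hno
  have hNP : NoPath (Sch T) := by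
    by_contra hcon
    obtain ⟨F, hF, hFT⟩ := sch_branch hpre hcon
    have h2' := fun s => h2 (F s) (hFT s)
    choose G hGK hG using h2'
    have hGi : Function.Injective G := fun s t hst => hF (by rw [← hG s, ← hG t, hst])
    have h1' : Countable (ℕ → Bool) := by
      have := hcount.to_subtype
      exact Function.Injective.countable (f := fun s => (⟨G s, hGK s⟩ : K))
        (fun s t hst => hGi (congrArg Subtype.val hst))
    obtain ⟨e, he⟩ := exists_surjective_nat (ℕ → Bool)
    obtain ⟨n, hn⟩ := he (fun n => !(e n n))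
    have := congrFun hn n
    simp at this
  exact absurd (hasTr_lt (sch_tree T) hNP (cp_of_prim (sch_prim hT))
    (rank_tr hK h1 h3 h4 hS hΩ)) (lt_irrefl _)

end H55.CK
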