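import Pool.Agent.H55.CK.Emb

/-!
# The shifts of valid tilings (definition)
-/

set_option autoImplicit false

namespace H55.CK

open H76.CB

/-- the shifts of valid tilings -/
def LL {T : Type} [Fintype T] (H V : T → T → Prop) (k : ℕ) : Set (ShiftSpace (k + 2)) := {S | carrier S ⊆ E T k '' Tl.X H V}

end H55.CK
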