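import Pool.Agent.H55.CK.Cells

/-!
# Module Lang: languages of shifts as branches of a tree (definitions and first facts)

`e : ℕ ≃ ℤ^d` enumerates the cells, `sy e x i` is the code of the symbol of `x` at the cell number `i`, `wd e x n` is the word of the first `n` symbols. `Occ e S w`: the
word `w` occurs in `S` (in the first `w.length` cells). `bits e S n`: does the word with number `n` occur in `S`? `KK e A N P`: the shifts with symbols in `A` and with `P` as the set of
words of length `N`. `TT e A N P`: the tree of those finite bit sequences which satisfy the local rules of the language of such a shift.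

* `wd_length`, `wd_succ` (`List.range_succ`), `sy_inj` (`e` is surjective, `intEquivNat` is injective), `occ_wd`, `bits_iff`: direct. `sy_shift`:
  `shift (stp j) x (e i) = x (stp j + e i) = x (e (mv e j i))`.
* `tt_pre`: `n < l.length` and `l <+: l'` give `l[n]? = l'[n]?`; for any index `l[k]?` is `none` or `l'[k]?`; so `l'[k]? ≠ some false → l[k]? ≠ some false`, and
  `¬ ∀ c ∈ A, l'[..]? = some false` gives `¬ ∀ c ∈ A, l[..]? = some false`.
* `shift_gen`: a set of configurations invariant under the `shift (stp j)` is invariant under all shifts (`AddSubgroup.closure`-free proof: induction on `∑ |u i|`, or first by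
  `Int.induction_on` for the multiples of one basis vector and then by `Finset.induction` on the support; `shift (u + v) x = shift v (shift u x)`).
-/

set_option autoImplicit false

namespace H55.CK

open H76.CB

variable {d : ℕ}

/-- code of the symbol at the cell number `i` -/
def sy (e : ℕ ≃ (Fin d → ℤ)) (x : Config d) (i : ℕ) : ℕ := Equiv.intEquivNat (x (e i))

/-- the word of the first `n` symbols -/
def wd (e : ℕ ≃ (Fin d → ℤ)) (x : Config d) (n : ℕ) : List ℕ := (List.range n).map (sy e x)

/-- the word `w` occurs in `S` -/
def Occ (e : ℕ ≃ (Fin d → ℤ)) (S : Set (Config d)) (w : List ℕ) : Prop := ∃ x ∈ S, wd e x w.length = w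

open Classical in
/-- the characteristic sequence of the language -/
noncomputable def bits (e : ℕ ≃ (Fin d → ℤ)) (S : ShiftSpace d) (n : ℕ) : Bool := decide (Occ e (carrier S) (lst n))

/-- the shifts with symbols in `A` and with `P` as the set of words of length `N` -/
def KK (e : ℕ ≃ (Fin d → ℤ)) (A : List ℕ) (N : ℕ) (P : List (List ℕ)) : Set (ShiftSpace d) :=
  {S | (∀ x ∈ carrier S, ∀ i, sy e x i ∈ A) ∧ ∀ w : List ℕ, w.length = N → (Occ e (carrier S) w ↔ w ∈ P)}

/-- the rules for the bit number `n` of the bit sequence `b` -/
structure Rul (e : ℕ ≃ (Fin d → ℤ)) (A : List ℕ) (N : ℕ) (P : List (List ℕ)) (b : List Bool) (n : ℕ) : Prop where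
  nil : lst n = [] → b[n]? = some true
  last : b[n]? = some true → lst n ≠ [] → (lst n).getLastD 0 ∈ A
  drop : b[n]? = some true → lst n ≠ [] → b[cod (lst n).dropLast]? ≠ some false
  ext : b[n]? = some true → ¬ ∀ c ∈ A, b[cod (lst n ++ [c])]? = some false
  shift : b[n]? = some true → ∀ j : Fin d × Bool, ∀ m < (lst n).length + 1,
    (∀ i < m, mv e j i < (lst n).length) → b[cod ((List.range m).map fun i => (lst n).getD (mv e j i) 0)]? ≠ some false
  table : (lst n).length = N → (b[n]? = some true ↔ lst n ∈ P)

/-- the tree of the languages -/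
def TT (e : ℕ ≃ (Fin d → ℤ)) (A : List ℕ) (N : ℕ) (P : List (List ℕ)) (b : List Bool) : Prop :=
  ∀ n < b.length, Rul e A N P b n

variable {e : ℕ ≃ (Fin d → ℤ)}

theorem wd_length (x : Config d) (n : ℕ) : (wd e x n).length = n := by
  simp [wd]

theorem wd_succ (x : Config d) (n : ℕ) : wd e x (n + 1) = wd e x n ++ [sy e x n] := by
  unfold wd
  rw [List.range_succ, List.map_append]
  rfl

theorem sy_inj {x y : Config d} (h : ∀ i, sy e x i = sy e y i) : x = y := by
  refine Config.ext fun n => ?_
  have h1 : Equiv.intEquivNat (x (e (e.symm n))) = Equiv.intEquivNat (y (e (e.symm n))) := h (e.symm n)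
  have h2 := Equiv.intEquivNat.injective h1
  rwa [Equiv.apply_symm_apply] at h2

/-- the words of a configuration in `S` occur -/
theorem occ_wd {S : Set (Config d)} {x : Config d} (hx : x ∈ S) (n : ℕ) : Occ e S (wd e x n) :=
  ⟨x, hx, by rw [wd_length]⟩

theorem bits_iff (S : ShiftSpace d) (n : ℕ) : bits e S n = true ↔ Occ e (carrier S) (lst n) := by
  simp [bits]

theorem sy_shift (j : Fin d × Bool) (x : Config d) (i : ℕ) : sy e (shift (stp j) x) i = sy e x (mv e j i) := by
  unfold sy mv
  rw [Equiv.apply_symm_apply]
  rfl

private theorem shift_comp (u v : Fin d → ℤ) (x : Config d) : shift (v + u) x = shift u (shift v x) := by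
  refine Config.ext fun n => ?_
  show x (v + u + n) = x (v + (u + n))
  rw [add_assoc]

private theorem shift_zero' (x : Config d) : shift 0 x = x := by
  refine Config.ext fun n => ?_
  show x (0 + n) = x n
  rw [zero_add]

theorem shift_gen {X : Set (Config d)} (h : ∀ j : Fin d × Bool, ∀ x ∈ X, shift (stp j) x ∈ X) (u : Fin d → ℤ)
    {x : Config d} (hx : x ∈ X) : shift u x ∈ X := by
  have h1 : ∀ (j : Fin d) (k : ℤ), ∀ x ∈ X, shift (Pi.single j k) x ∈ X := by
    intro j k
    induction k using Int.induction_on with
    | zero =>
      intro x hx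
      rw [Pi.single_zero, shift_zero']
      exact hx
    | succ k ih =>
      intro x hx
      have h2 : stp (j, true) = Pi.single j (1 : ℤ) := rfl
      rw [Pi.single_add, shift_comp, ← h2]
      exact h _ _ (ih x hx)
    | pred k ih =>
      intro x hx
      have h2 : stp (j, false) = Pi.single j (-1 : ℤ) := rfl
      rw [sub_eq_add_neg, Pi.single_add, shift_comp, ← h2]
      exact h _ _ (ih x hx)
  have h2 : ∀ s : Finset (Fin d), shift (∑ j ∈ s, Pi.single j (u j)) x ∈ X := by
    intro s
    induction s using Finset.induction_on with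
    | empty =>
      rw [Finset.sum_empty, shift_zero']
      exact hx
    | insert a s ha ih =>
      rw [Finset.sum_insert ha, add_comm, shift_comp]
      exact h1 a (u a) _ ih
  have h3 := h2 Finset.univ
  rwa [Finset.univ_sum_single] at h3

private theorem pre_some {l t : List Bool} {k : ℕ} {b : Bool} (h : l[k]? = some b) :
    (l ++ t)[k]? = some b := by
  have hk : k < l.length := by
    by_contra hcon
    rw [List.getElem?_eq_none (not_lt.1 hcon)] at h
    exact absurd h (by simp)
  rw [List.getElem?_append_left hk]
  exact h

theorem tt_pre {A : List ℕ} {N : ℕ} {P : List (List ℕ)} (l l' : List Bool) (h : l <+: l')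
    (hl : TT e A N P l') : TT e A N P l := by
  obtain ⟨t, rfl⟩ := h
  intro n hn
  have hn' : n < (l ++ t).length := by
    rw [List.length_append]
    omega
  have h1 := hl n hn'
  have he : (l ++ t)[n]? = l[n]? := List.getElem?_append_left hn
  refine ⟨fun h0 => ?_, fun h0 h2 => ?_, fun h0 h2 h3 => ?_, fun h0 h2 => ?_, fun h0 j m hm h2 h3 => ?_,
    fun h0 => ?_⟩
  · rw [← he]
    exact h1.nil h0
  · exact h1.last (pre_some h0) h2
  · exact h1.drop (pre_some h0) h2 (pre_some h3)
  · exact h1.ext (pre_some h0) fun c hc => pre_some (h2 c hc)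
  · exact h1.shift (pre_some h0) j m hm h2 (pre_some h3)
  · rw [← he]
    exact h1.table h0

end H55.CK
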