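import Pool.Agent.H55.CK.Lang

/-!
# Module Sound: the characteristic sequence of the language of a shift is a branch of the tree

Let `b = (List.range t).map (bits e S)`: `b[n]? = some (bits e S n)` for `n < t`, `none` for `n ≥ t`; so `b[n]? = some true` gives `Occ (lst n)` (`bits_iff`) and `b[cod w]? ≠ some false`
follows from `Occ w` (`lst_cod`). `nil`: `carrier S` is nonempty (`carrier_nonempty`). Let `x ∈ carrier S`, `wd e x (lst n).length = lst n`.
`last`: the last entry is `sy e x (len - 1) ∈ A`. `drop`: `dropLast` is `wd e x (len - 1)` (`wd_succ`, `occ_wd`). `ext`: `c = sy e x len ∈ A` and `lst n ++ [c] = wd e x (len + 1)` occurs.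
`shift`: `y = shift (stp j) x ∈ carrier S` (`carrier_shift`), `wd e y m` is the list in the rule: `sy e y i = sy e x (mv e j i) = (lst n).getD (mv e j i) 0` since `mv e j i < len`
(`sy_shift`). `table`: definition of `KK` and `bits_iff`.
-/

set_option autoImplicit false

namespace H55.CK

open H76.CB

variable {d : ℕ}

private theorem getElem?_bits (S : ShiftSpace d) (e : ℕ ≃ (Fin d → ℤ)) (t n : ℕ) :
    ((List.range t).map (bits e S))[n]? = if n < t then some (bits e S n) else none := by
  by_cases h : n < t
  · simp [h]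
  · simp [h]

private theorem occ_of_some {S : ShiftSpace d} {e : ℕ ≃ (Fin d → ℤ)} {t n : ℕ}
    (h : ((List.range t).map (bits e S))[n]? = some true) : Occ e (carrier S) (lst n) := by
  rw [getElem?_bits] at h
  by_cases hn : n < t
  · rw [if_pos hn] at h
    exact (bits_iff S n).1 (Option.some.inj h)
  · rw [if_neg hn] at h
    cases h

private theorem ne_false_of_occ {S : ShiftSpace d} {e : ℕ ≃ (Fin d → ℤ)} {t : ℕ} {w : List ℕ}
    (h : Occ e (carrier S) w) : ((List.range t).map (bits e S))[cod w]? ≠ some false := by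
  intro hf
  rw [getElem?_bits] at hf
  by_cases hn : cod w < t
  · rw [if_pos hn] at hf
    have h1 : bits e S (cod w) = false := Option.some.inj hf
    have h2 : bits e S (cod w) = true := (bits_iff S _).2 (by rw [lst_cod]; exact h)
    rw [h1] at h2
    cases h2
  · rw [if_neg hn] at hf
    cases hf

private theorem wd_map (e : ℕ ≃ (Fin d → ℤ)) (x : Config d) (n : ℕ) :
    wd e x n = (List.range n).map (sy e x) := rfl

theorem tt_sound {e : ℕ ≃ (Fin d → ℤ)} {A : List ℕ} {N : ℕ} {P : List (List ℕ)} {S : ShiftSpace d}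
    (hS : S ∈ KK e A N P) (t : ℕ) : TT e A N P ((List.range t).map (bits e S)) := by
  intro n hn
  have hnt : n < t := by simpa using hn
  have hget : ((List.range t).map (bits e S))[n]? = some (bits e S n) := by
    rw [getElem?_bits, if_pos hnt]
  obtain ⟨hA, hP⟩ := hS
  refine ⟨?_, ?_, ?_, ?_, ?_, ?_⟩
  · intro h0
    rw [hget]
    congr 1
    rw [bits_iff, h0]
    obtain ⟨x, hx⟩ := carrier_nonempty S
    exact ⟨x, hx, by simp [wd_map]⟩
  · intro h1 h2
    obtain ⟨x, hx, hw⟩ := occ_of_some h1
    obtain ⟨m, hm⟩ : ∃ m, (lst n).length = m + 1 :=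
      Nat.exists_eq_succ_of_ne_zero (fun h => h2 (List.length_eq_zero_iff.1 h))
    rw [hm, wd_succ] at hw
    rw [← hw]
    rw [List.getLastD_concat]
    exact hA x hx m
  · intro h1 h2
    obtain ⟨x, hx, hw⟩ := occ_of_some h1
    obtain ⟨m, hm⟩ : ∃ m, (lst n).length = m + 1 :=
      Nat.exists_eq_succ_of_ne_zero (fun h => h2 (List.length_eq_zero_iff.1 h))
    rw [hm, wd_succ] at hw
    have h3 : (lst n).dropLast = wd e x m := by
      rw [← hw, List.dropLast_concat]
    rw [h3]
    exact ne_false_of_occ (occ_wd hx m)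
  · intro h1 h2
    obtain ⟨x, hx, hw⟩ := occ_of_some h1
    have h3 := h2 (sy e x (lst n).length) (hA x hx _)
    have h4 : lst n ++ [sy e x (lst n).length] = wd e x ((lst n).length + 1) := by
      rw [wd_succ, hw]
    rw [h4] at h3
    exact ne_false_of_occ (occ_wd hx _) h3
  · intro h1 j m _ hmv
    obtain ⟨x, hx, hw⟩ := occ_of_some h1
    have h3 : (List.range m).map (fun i => (lst n).getD (mv e j i) 0) = wd e (shift (stp j) x) m := by
      rw [wd_map]
      apply List.map_congr_left
      intro i hi
      have hi' : i < m := List.mem_range.1 hi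
      have hlt := hmv i hi'
      rw [sy_shift]
      have h5 : (lst n).getD (mv e j i) 0 = (wd e x (lst n).length).getD (mv e j i) 0 := by
        rw [hw]
      rw [h5, wd_map]
      simp [List.getD_eq_getElem?_getD, hlt]
    rw [h3]
    exact ne_false_of_occ (occ_wd (carrier_shift S (stp j) hx) m)
  · intro hlen
    rw [hget, ← hP (lst n) hlen, ← bits_iff]
    simp

end H55.CK
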