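import Pool.Agent.H55.CK.Comp
import Pool.Agent.H55.CK.Lang

/-!
# Module TPrim: the tree of the languages is primitive recursive

`TT e A N P b ↔ ∀ n < b.length, ` (the conjunction of the six rules): `PrimrecRel.forall_lt` for the relation `R n b` (then compose with `b ↦ (b.length, b)`). Each rule is a boolean
combination of primitive recursive relations in `(n, b)`: `prim_lst`, `prim_cod`, `Primrec.list_getElem?`, `Primrec.eq`, `Primrec.list_length`, `PrimrecPred.and/.or/.not` (`p → q` is
`¬ p ∨ q`). `dropLast l = l.take (l.length - 1)` (`List.dropLast_eq_take`, `Primrec.list_take`), `getLastD l 0 = l.getD (l.length - 1) 0` (private lemma). Quantifiers over the FIXED finite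
lists `A`, and over `j : Fin d × Bool` (as `∀ j ∈ Finset.univ.toList`): private lemma `prim_all` by induction on the fixed list (each `R j` is a primitive recursive predicate; the empty
conjunction is constant). `lst n ∈ P` for a fixed list `P`, `x ∈ A`: finite disjunction of equalities (same lemma with `.not`). Rule `shift`: for fixed `j` the map
`(m, n) ↦ cod ((List.range m).map fun i => (lst n).getD (mv e j i) 0)` is primitive recursive (`Primrec.list_map`, `Primrec.list_range`, `hmv j`), the quantifiers `∀ m < ..`, `∀ i < m`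
are `PrimrecRel.forall_lt` with the parameter `(n, b)`.
-/

set_option autoImplicit false

namespace H55.CK

variable {d : ℕ}

private theorem prim_imp {α : Type} [Primcodable α] {p q : α → Prop} (hp : PrimrecPred p) (hq : PrimrecPred q) :
    PrimrecPred fun a => p a → q a :=
  (hp.not.or hq).of_eq fun a => by tauto

private theorem prim_iff {α : Type} [Primcodable α] {p q : α → Prop} (hp : PrimrecPred p) (hq : PrimrecPred q) :
    PrimrecPred fun a => p a ↔ q a :=
  ((prim_imp hp hq).and (prim_imp hq hp)).of_eq fun a => by tauto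

private theorem prim_all {α β : Type} [Primcodable α] {R : β → α → Prop} (L : List β) (h : ∀ j, PrimrecPred (R j)) :
    PrimrecPred fun a => ∀ j ∈ L, R j a := by
  induction L with
  | nil =>
    have h0 : PrimrecPred fun _ : α => (0 : ℕ) = 0 := Primrec.eq.comp (Primrec.const 0) (Primrec.const 0)
    refine h0.of_eq fun a => ?_
    simp
  | cons b L ih =>
    refine ((h b).and ih).of_eq fun a => ?_
    simp

private theorem prim_mem {α β : Type} [Primcodable α] [Primcodable β] [DecidableEq β] {f : α → β} (hf : Primrec f)
    (L : List β) : PrimrecPred fun a => f a ∈ L := by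
  have h := (prim_all (R := fun (b : β) (a : α) => ¬ f a = b) L
    fun b => (Primrec.eq.comp hf (Primrec.const b)).not).not
  refine h.of_eq fun a => ?_
  constructor
  · intro h1
    by_contra h2
    exact h1 fun j hj h3 => h2 (h3 ▸ hj)
  · intro h1 h2
    exact h2 _ h1 rfl

private theorem prim_lt {α : Type} [Primcodable α] {R : ℕ → α → Prop} (hR : PrimrecRel R) {f : α → ℕ} (hf : Primrec f) :
    PrimrecPred fun a => ∀ i < f a, R i a :=
  (hR.forall_mem_list.comp (Primrec.list_range.comp hf) Primrec.id).of_eq fun a => by simp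

private theorem rul_iff (e : ℕ ≃ (Fin d → ℤ)) (A : List ℕ) (N : ℕ) (P : List (List ℕ)) (b : List Bool) (n : ℕ) :
    Rul e A N P b n ↔
      (lst n = [] → b[n]? = some true) ∧
      (b[n]? = some true → ¬ lst n = [] → (lst n).getD ((lst n).length - 1) 0 ∈ A) ∧
      (b[n]? = some true → ¬ lst n = [] → ¬ b[cod ((lst n).take ((lst n).length - 1))]? = some false) ∧
      (b[n]? = some true → ¬ ∀ c ∈ A, b[cod (lst n ++ [c])]? = some false) ∧
      (b[n]? = some true → ∀ j ∈ (Finset.univ : Finset (Fin d × Bool)).toList, ∀ m < (lst n).length + 1,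
        (∀ i < m, mv e j i < (lst n).length) →
          ¬ b[cod ((List.range m).map fun i => (lst n).getD (mv e j i) 0)]? = some false) ∧
      ((lst n).length = N → (b[n]? = some true ↔ lst n ∈ P)) := by
  have hl : (lst n).getLastD 0 = (lst n).getD ((lst n).length - 1) 0 := by
    rcases List.eq_nil_or_concat (lst n) with h | ⟨l, a, h⟩
    · rw [h]; rfl
    · rw [h, List.concat_eq_append]
      have h1 : (l ++ [a]).length - 1 = l.length := by simp
      rw [h1, List.getD_append_right _ _ _ _ le_rfl]
      simp
  constructor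
  · intro h
    refine ⟨h.nil, fun h1 h2 => hl ▸ h.last h1 h2, fun h1 h2 => ?_, h.ext, fun h1 j _ => h.shift h1 j, h.table⟩
    rw [← List.dropLast_eq_take]
    exact h.drop h1 h2
  · rintro ⟨h1, h2, h3, h4, h5, h6⟩
    refine ⟨h1, fun g1 g2 => hl ▸ h2 g1 g2, fun g1 g2 => ?_, h4, fun g1 j => h5 g1 j (by simp), h6⟩
    rw [List.dropLast_eq_take]
    exact h3 g1 g2

private theorem rul_prim {e : ℕ ≃ (Fin d → ℤ)} (hmv : ∀ j : Fin d × Bool, Primrec (mv e j)) (A : List ℕ) (N : ℕ)
    (P : List (List ℕ)) : PrimrecRel fun (n : ℕ) (b : List Bool) => Rul e A N P b n := by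
  have hL : Primrec fun q : ℕ × List Bool => lst q.1 := prim_lst.comp Primrec.fst
  have hlen : Primrec fun q : ℕ × List Bool => (lst q.1).length := Primrec.list_length.comp hL
  have hlen1 : Primrec fun q : ℕ × List Bool => (lst q.1).length - 1 :=
    Primrec.nat_sub.comp hlen (Primrec.const 1)
  have hnil : PrimrecPred fun q : ℕ × List Bool => lst q.1 = [] := Primrec.eq.comp hL (Primrec.const [])
  have hbn : PrimrecPred fun q : ℕ × List Bool => q.2[q.1]? = some true :=
    Primrec.eq.comp (Primrec.list_getElem?.comp Primrec.snd Primrec.fst) (Primrec.const (some true))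
  have hlast : PrimrecPred fun q : ℕ × List Bool => (lst q.1).getD ((lst q.1).length - 1) 0 ∈ A :=
    prim_mem ((Primrec.list_getD 0).comp hL hlen1) A
  have hdrop : PrimrecPred fun q : ℕ × List Bool => q.2[cod ((lst q.1).take ((lst q.1).length - 1))]? = some false :=
    Primrec.eq.comp (Primrec.list_getElem?.comp Primrec.snd
      (prim_cod.comp (Primrec.list_take.comp hlen1 hL))) (Primrec.const (some false))
  have hext : PrimrecPred fun q : ℕ × List Bool => ∀ c ∈ A, q.2[cod (lst q.1 ++ [c])]? = some false :=
    prim_all (R := fun (c : ℕ) (q : ℕ × List Bool) => q.2[cod (lst q.1 ++ [c])]? = some false) A fun c =>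
      Primrec.eq.comp (Primrec.list_getElem?.comp Primrec.snd
        (prim_cod.comp (Primrec.list_append.comp hL (Primrec.const [c])))) (Primrec.const (some false))
  have hshift : PrimrecPred fun q : ℕ × List Bool => ∀ j ∈ (Finset.univ : Finset (Fin d × Bool)).toList,
      ∀ m < (lst q.1).length + 1, (∀ i < m, mv e j i < (lst q.1).length) →
        ¬ q.2[cod ((List.range m).map fun i => (lst q.1).getD (mv e j i) 0)]? = some false := by
    refine prim_all (R := fun (j : Fin d × Bool) (q : ℕ × List Bool) =>
      ∀ m < (lst q.1).length + 1, (∀ i < m, mv e j i < (lst q.1).length) →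
        ¬ q.2[cod ((List.range m).map fun i => (lst q.1).getD (mv e j i) 0)]? = some false) _ fun j => ?_
    refine prim_lt (R := fun (m : ℕ) (q : ℕ × List Bool) => (∀ i < m, mv e j i < (lst q.1).length) →
        ¬ q.2[cod ((List.range m).map fun i => (lst q.1).getD (mv e j i) 0)]? = some false) ?_
      (Primrec.succ.comp hlen)
    have k1 : PrimrecPred fun p : ℕ × (ℕ × List Bool) => ∀ i < p.1, mv e j i < (lst p.2.1).length := by
      refine prim_lt (R := fun (i : ℕ) (p : ℕ × (ℕ × List Bool)) => mv e j i < (lst p.2.1).length) ?_ Primrec.fst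
      exact Primrec.nat_lt.comp ((hmv j).comp Primrec.fst)
        (Primrec.list_length.comp (prim_lst.comp (Primrec.fst.comp (Primrec.snd.comp Primrec.snd))))
    have k2 : Primrec fun p : ℕ × (ℕ × List Bool) =>
        (List.range p.1).map fun i => (lst p.2.1).getD (mv e j i) 0 := by
      refine Primrec.list_map (Primrec.list_range.comp Primrec.fst) ?_
      exact (Primrec.list_getD 0).comp (prim_lst.comp (Primrec.fst.comp (Primrec.snd.comp Primrec.fst)))
        ((hmv j).comp Primrec.snd)
    have k3 : PrimrecPred fun p : ℕ × (ℕ × List Bool) =>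
        p.2.2[cod ((List.range p.1).map fun i => (lst p.2.1).getD (mv e j i) 0)]? = some false :=
      Primrec.eq.comp (Primrec.list_getElem?.comp (Primrec.snd.comp Primrec.snd)
        (prim_cod.comp k2)) (Primrec.const (some false))
    exact prim_imp k1 k3.not
  have htab : PrimrecPred fun q : ℕ × List Bool => (lst q.1).length = N → (q.2[q.1]? = some true ↔ lst q.1 ∈ P) :=
    prim_imp (Primrec.eq.comp hlen (Primrec.const N)) (prim_iff hbn (prim_mem hL P))
  refine PrimrecPred.of_eq ((prim_imp hnil hbn).and ((prim_imp hbn (prim_imp hnil.not hlast)).and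
    ((prim_imp hbn (prim_imp hnil.not hdrop.not)).and ((prim_imp hbn hext.not).and
      ((prim_imp hbn hshift).and htab))))) fun q => ?_
  exact (rul_iff e A N P q.2 q.1).symm

theorem tt_prim {e : ℕ ≃ (Fin d → ℤ)} (hmv : ∀ j : Fin d × Bool, Primrec (mv e j)) (A : List ℕ) (N : ℕ)
    (P : List (List ℕ)) : PrimrecPred (TT e A N P) :=
  prim_lt (R := fun (n : ℕ) (b : List Bool) => Rul e A N P b n) (rul_prim hmv A N P) Primrec.list_length

end H55.CK
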