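import Pool.Agent.H55.CK.Emb

/-!
# Module Top: the subsystems `Y v`

`Y v = Cl (⋃_{j < v} Orb (o j))` (`<` is `r`).
* `orb_sh`: `sh u (sh u' x) = sh (u + u') x` (or `u' + u`). `Y_sh`: `cl_sh`. `Y_cl`: `cl_cl`. `orb_Y`: `sub_cl`.
* `exists_top`: there are finitely many patterns `{(a, b) | |a| ≤ R, |b| ≤ R} → T`; every pattern of an element of `Y v` is the pattern of an element of `Orb (o j)`, `j < v` (definition of `Cl`). So a finite
  nonempty set of `j < v` has all the patterns of `Y v` (choose `j` for every pattern which occurs; nonempty: add the given `y`); let `y < v` be its greatest element for the linear order `r` (induction on the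
  finite set, or `Finset.exists_maximal`/`IsWellOrder` trichotomy). Each `j` in it satisfies `o j ∈ Cl (Orb (o y))` (`A.sub`, or `j = y` and `sub_cl`), so `sh u (o j) ∈ Cl (Orb (o y))` (`cl_sh`) and its pattern of
  radius `R` occurs in `Orb (o y)`.
-/

set_option autoImplicit false

namespace H55.CK

open H76.CB

variable {r : ℕ → ℕ → Prop}

instance (A : Tiles r) : Fintype A.T := A.fin

theorem orb_sh {T : Type} {x y : ℤ × ℤ → T} (u : ℤ × ℤ) (h : y ∈ Tl.Orb x) : Tl.sh u y ∈ Tl.Orb x := by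
  obtain ⟨w, rfl⟩ := h
  refine ⟨u + w, ?_⟩
  funext p
  show x (p + (u + w)) = x (p + u + w)
  rw [add_assoc]

private lemma orb_self {T : Type} (x : ℤ × ℤ → T) : x ∈ Tl.Orb x := by
  refine ⟨0, ?_⟩
  funext p
  show x (p + 0) = x p
  rw [add_zero]

private lemma union_sh (A : Tiles r) (v : ℕ) (u : ℤ × ℤ) (x : ℤ × ℤ → A.T)
    (hx : x ∈ ⋃ j ∈ {j | r j v}, Tl.Orb (A.o j)) : Tl.sh u x ∈ ⋃ j ∈ {j | r j v}, Tl.Orb (A.o j) := by
  simp only [Set.mem_iUnion, exists_prop] at hx ⊢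
  obtain ⟨j, hj, hx⟩ := hx
  exact ⟨j, hj, orb_sh u hx⟩

theorem Y_sh (A : Tiles r) (v : ℕ) (u : ℤ × ℤ) {x : ℤ × ℤ → A.T} (hx : x ∈ A.Y v) : Tl.sh u x ∈ A.Y v :=
  cl_sh (fun w y hy => union_sh A v w y hy) u hx

theorem Y_cl (A : Tiles r) (v : ℕ) : Tl.Cl (A.Y v) ⊆ A.Y v := cl_cl _

theorem orb_Y (A : Tiles r) {j v : ℕ} (h : r j v) : Tl.Orb (A.o j) ⊆ A.Y v := by
  intro x hx
  refine sub_cl _ ?_
  simp only [Set.mem_iUnion, exists_prop]
  exact ⟨j, h, hx⟩

private lemma exists_max (hr : IsWellOrder ℕ r) (F : Finset ℕ) : F.Nonempty →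
    ∃ y ∈ F, ∀ j ∈ F, j = y ∨ r j y := by
  classical
  induction F using Finset.induction_on with
  | empty => intro h; exact absurd h (by simp)
  | insert a s ha ih =>
    intro _
    rcases s.eq_empty_or_nonempty with h0 | h0
    · subst h0
      refine ⟨a, by simp, ?_⟩
      intro j hj
      left
      simpa using hj
    · obtain ⟨y, hy, hmax⟩ := ih h0
      haveI := hr
      rcases trichotomous_of r a y with h1 | h1 | h1
      · refine ⟨y, Finset.mem_insert_of_mem hy, ?_⟩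
        intro j hj
        rcases Finset.mem_insert.1 hj with rfl | hj
        · exact Or.inr h1
        · exact hmax j hj
      · exact absurd (h1 ▸ hy) ha
      · refine ⟨a, Finset.mem_insert_self a s, ?_⟩
        intro j hj
        rcases Finset.mem_insert.1 hj with rfl | hj
        · exact Or.inl rfl
        · rcases hmax j hj with rfl | h2
          · exact Or.inr h1
          · exact Or.inr (_root_.trans h2 h1)

/-- every pattern of `Y v` occurs in the orbit of one `o y`, `y < v` -/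
theorem exists_top (A : Tiles r) (hr : IsWellOrder ℕ r) {v : ℕ} (hy : ∃ y, r y v) (R : ℕ) :
    ∃ y, r y v ∧ ∀ x ∈ A.Y v, ∃ x' ∈ Tl.Orb (A.o y), ∀ a b : ℤ, |a| ≤ R → |b| ≤ R → x' (a, b) = x (a, b) := by
  classical
  obtain ⟨y₀, hy₀⟩ := hy
  let I : Type := (Finset.Icc (-(R : ℤ)) R : Finset ℤ)
  let pat : (ℤ × ℤ → A.T) → (I × I → A.T) := fun x q => x (q.1.1, q.2.1)
  have hpat : ∀ x x' : ℤ × ℤ → A.T, pat x' = pat x → ∀ a b : ℤ, |a| ≤ R → |b| ≤ R → x' (a, b) = x (a, b) := by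
    intro x x' h a b ha hb
    have ha' : a ∈ Finset.Icc (-(R : ℤ)) R := by rw [Finset.mem_Icc]; exact abs_le.1 ha
    have hb' : b ∈ Finset.Icc (-(R : ℤ)) R := by rw [Finset.mem_Icc]; exact abs_le.1 hb
    exact congrFun h (⟨a, ha'⟩, ⟨b, hb'⟩)
  have hpat' : ∀ x x' : ℤ × ℤ → A.T, (∀ a b : ℤ, |a| ≤ R → |b| ≤ R → x' (a, b) = x (a, b)) → pat x' = pat x := by
    intro x x' h
    funext q
    have h1 := q.1.2
    have h2 := q.2.2
    rw [Finset.mem_Icc] at h1 h2
    exact h _ _ (abs_le.2 h1) (abs_le.2 h2)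
  let jj : (I × I → A.T) → ℕ := fun p =>
    if h : ∃ j, r j v ∧ ∃ x ∈ Tl.Orb (A.o j), pat x = p then h.choose else y₀
  have hjv : ∀ p, r (jj p) v := by
    intro p
    by_cases h : ∃ j, r j v ∧ ∃ x ∈ Tl.Orb (A.o j), pat x = p
    · have : jj p = h.choose := dif_pos h
      rw [this]
      exact h.choose_spec.1
    · have : jj p = y₀ := dif_neg h
      rw [this]
      exact hy₀
  have : Nonempty A.T := ⟨A.o 0 (0, 0)⟩
  have : Nonempty (I × I → A.T) := ⟨pat (A.o 0)⟩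
  obtain ⟨y, hyF, hmax⟩ := exists_max hr (Finset.univ.image jj) (Finset.univ_nonempty.image jj)
  obtain ⟨p₀, -, rfl⟩ := Finset.mem_image.1 hyF
  refine ⟨jj p₀, hjv p₀, ?_⟩
  intro x hx
  obtain ⟨z, hz, hzx⟩ := hx R
  simp only [Set.mem_iUnion, exists_prop] at hz
  obtain ⟨j, hj, hz⟩ := hz
  have hex : ∃ j, r j v ∧ ∃ x' ∈ Tl.Orb (A.o j), pat x' = pat x := ⟨j, hj, z, hz, hpat' _ _ hzx⟩
  have hjj : jj (pat x) = hex.choose := dif_pos hex
  obtain ⟨x', hx', hxx'⟩ := hex.choose_spec.2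
  rw [← hjj] at hx'
  have hin : A.o (jj (pat x)) ∈ Tl.Cl (Tl.Orb (A.o (jj p₀))) := by
    rcases hmax (jj (pat x)) (Finset.mem_image_of_mem _ (Finset.mem_univ _)) with h1 | h1
    · rw [h1]
      exact sub_cl _ (orb_self _)
    · exact A.sub _ _ h1
  obtain ⟨u, rfl⟩ := hx'
  have hin' : Tl.sh u (A.o (jj (pat x))) ∈ Tl.Cl (Tl.Orb (A.o (jj p₀))) :=
    cl_sh (fun w y hy => orb_sh w hy) u hin
  obtain ⟨w, hw, hwu⟩ := hin' R
  refine ⟨w, hw, ?_⟩
  intro a b ha hb
  rw [hwu a b ha hb]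
  exact hpat x _ hxx' a b ha hb

end H55.CK
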