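import Pool.Agent.H55.CK.Krei
import Pool.Agent.H55.CK.TPrim
import Pool.Agent.H55.CK.Sound
import Pool.Agent.H55.CK.Compl
import Pool.Agent.H55.CK.BaseB

/-!
# Module Upper: the Cantor-Bendixson rank of the space of shifts is at most `ω₁^CK`
-/

set_option autoImplicit false

namespace H55.CK

open H76.CB CantorBendixson

theorem upper (d : ℕ) (hd : 0 < d) : cbRank (ShiftSpace d) ≤ omega1CK := by
  obtain ⟨e, hmv⟩ := exists_cells d hd
  refine csInf_le' ?_
  refine Set.Subset.antisymm (iteratedDerivedSet_antitone _ le_self_add) ?_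
  intro S hS
  by_contra hS'
  have h1 : ∃ ε > 0, ∀ S' ∈ iteratedDerivedSet (Set.univ : Set (ShiftSpace d)) omega1CK, dist S' S < ε → S' = S := by
    by_contra hcon
    push Not at hcon
    refine hS' (mem_succ hS fun ε hε => ?_)
    obtain ⟨S', h2, h3, h4⟩ := hcon ε hε
    exact ⟨S', h2, h4, h3⟩
  obtain ⟨ε, hε, h1⟩ := h1
  obtain ⟨A, N, P, hSK, hK⟩ := kk_small (e := e) S hε
  exact kreisel (kk_open (e := e) (A := A) (N := N) (P := P)) (tt_prim hmv A N P)
    (fun l l' h => tt_pre l l' h) (fun S' hS' => tt_sound hS') (fun β h => tt_compl h) bits_inj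
    (fun S' _ => bits_cont S') (fun S' hS' ε hε => bits_base hS' hε) hSK hS
    (fun S' hS' h => h1 S' h (hK S' hS'))

end H55.CK
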